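import Pool.Agent.Lib.MP_aae0ca_gt.Group

/-! # Discrete blocks accumulating at the neutral element (MP_aae0ca_gt) -/

open Cardinal hiding univ
open Set Topology

universe u

namespace Pool.Agent.CoDiag

variable {G : Type u} [Group G] [TopologicalSpace G] [IsTopologicalGroup G] [T2Space G]

/-- One block: a discrete set which accumulates at `1`, inside a small closed subgroup. -/
theorem exists_block (h : DiscretelyLindelof (CoDiagonal G)) (N : G → Subgroup G)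
    (hN : ∀ g, g ≠ 1 → IsClosed (N g : Set G) ∧ g ∉ N g) {l : Cardinal.{u}} (hl1 : ℵ_ 1 < l)
    (hl : ∀ A : Set G, #A < l → ∃ x, x ≠ 1 ∧ ∀ a ∈ A, a ≠ 1 → x ∈ N a) (A : Set G) (hA : #A < l) :
    ∃ D : Set G, IsDiscrete D ∧ #D ≤ ℵ_ 1 ∧ (1 : G) ∈ closure D ∧ (1 : G) ∉ D ∧
      ∀ d ∈ D, ∀ a ∈ A, a ≠ 1 → d ∈ N a := by
  classical
  have hreg : (ℵ_ 1 : Cardinal.{u}).IsRegular := isRegular_aleph_one
  have hl0 : ℵ₀ ≤ l := (aleph0_le_aleph 1).trans hl1.le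
  obtain ⟨x, hxH, hinj, hdisc, -, -⟩ := master hreg ({1}ᶜ : Set G)
    {x | x ≠ 1 ∧ ∀ a ∈ A, a ≠ 1 → x ∈ N a} ((fun g : G => ((N g : Set G))ᶜ) '' {1}ᶜ) (by
      rintro _ ⟨g, hg, rfl⟩
      exact (hN g hg).1.isOpen_compl) (fun x hx => hx.1) (by
      intro D _ hD _
      obtain ⟨r, hr, hcov⟩ := (isLindelof_closure_diff h hD 1).elim_countable_subcover
        (fun g : ({1}ᶜ : Set G) => ((N g : Set G))ᶜ) (fun g => (hN g g.2).1.isOpen_compl) (by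
          rintro y ⟨-, hy⟩
          exact mem_iUnion.2 ⟨⟨y, hy⟩, (hN y hy).2⟩)
      refine ⟨(fun g : ({1}ᶜ : Set G) => ((N g : Set G))ᶜ) '' r, ?_, ?_, ?_⟩
      · rintro _ ⟨g, -, rfl⟩
        exact ⟨g, g.2, rfl⟩
      · exact (Cardinal.mk_le_aleph0_iff.2 (hr.image _).to_subtype).trans_lt aleph0_lt_aleph_one
      · rw [sUnion_image]
        exact hcov) (by
      intro 𝒱 h𝒱 hcard hcov
      have hch : ∀ V : 𝒱, ∃ g : G, g ≠ 1 ∧ ((N g : Set G))ᶜ = V := fun V => h𝒱 V.2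
      choose g hg hgV using hch
      obtain ⟨y, hy1, hy⟩ := hl (A ∪ range g) (by
        refine (Cardinal.mk_union_le _ _).trans_lt (Cardinal.add_lt_of_lt hl0 hA ?_)
        exact mk_range_le.trans_lt (hcard.trans hl1))
      obtain ⟨V, hV, hyV⟩ := hcov (show y ∈ {x | x ≠ 1 ∧ ∀ a ∈ A, a ≠ 1 → x ∈ N a} from
        ⟨hy1, fun a ha => hy a (Or.inl ha)⟩)
      have hyV' : y ∈ ((⟨V, hV⟩ : 𝒱) : Set G) := hyV
      rw [← hgV ⟨V, hV⟩] at hyV'
      exact hyV' (hy _ (Or.inr ⟨_, rfl⟩) (hg _))) (fun _ => ∅) (fun _ => empty_subset _)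
      (fun _ => by simp)
  -- a point `z ≠ 1` in the closure of `range x`, not in `range x`
  have hz : ∃ z ∈ closure (range x) \ {1}, z ∉ range x := by
    by_contra hcon
    push Not at hcon
    have h1 : closure (range x) \ {1} = range x := by
      refine Subset.antisymm (fun z hz => hcon z hz) ?_
      rintro _ ⟨i, rfl⟩
      exact ⟨subset_closure ⟨i, rfl⟩, (hxH i).1⟩
    have h2 := isLindelof_closure_diff h hdisc 1
    rw [h1] at h2
    rw [isDiscrete_iff_forall_mem_exists_isOpen] at hdisc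
    choose! O hO hOx using hdisc
    obtain ⟨r, hr, hcov⟩ := h2.elim_countable_subcover (fun y : range x => O y)
      (fun y => hO y y.2) (by
        intro y hy
        refine mem_iUnion.2 ⟨⟨y, hy⟩, ?_⟩
        have h3 : y ∈ O y ∩ range x := by rw [hOx y hy]; rfl
        exact h3.1)
    have h4 : range x ⊆ Subtype.val '' r := by
      intro y hy
      obtain ⟨w, hw, hyw⟩ := mem_iUnion₂.1 (hcov hy)
      have h5 : y ∈ O w ∩ range x := ⟨hyw, hy⟩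
      rw [hOx w w.2] at h5
      exact ⟨w, hw, (mem_singleton_iff.1 h5).symm⟩
    have h6 : #(range x) ≤ ℵ₀ :=
      Cardinal.mk_le_aleph0_iff.2 ((hr.image _).mono h4).to_subtype
    rw [Cardinal.mk_range_eq x hinj, Cardinal.mk_ord_toType] at h6
    exact absurd h6 (not_le.2 aleph0_lt_aleph_one)
  obtain ⟨z, ⟨hz, hz1⟩, hzx⟩ := hz
  refine ⟨(fun y => z⁻¹ * y) '' range x, ?_, ?_, ?_, ?_, ?_⟩
  · rw [isDiscrete_iff_forall_mem_exists_isOpen] at hdisc ⊢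
    rintro _ ⟨y, hy, rfl⟩
    obtain ⟨O, hO, hOy⟩ := hdisc y hy
    refine ⟨(fun w => z * w) ⁻¹' O, hO.preimage (continuous_const.mul continuous_id),
      Subset.antisymm ?_ ?_⟩
    · rintro _ ⟨h1, ⟨w, hw, rfl⟩⟩
      have h2 : w ∈ O ∩ range x := ⟨by simpa using h1, hw⟩
      rw [hOy] at h2
      rw [mem_singleton_iff.1 h2]
      rfl
    · rintro _ rfl
      have h2 : y ∈ O ∩ range x := by rw [hOy]; rfl
      exact ⟨by simpa using h2.1, ⟨y, hy, rfl⟩⟩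
  · refine mk_image_le.trans (mk_range_le.trans ?_)
    rw [Cardinal.mk_ord_toType]
  · have h1 : (1 : G) = z⁻¹ * z := by simp
    rw [h1]
    exact map_mem_closure (continuous_const.mul continuous_id) hz (fun y hy => ⟨y, hy, rfl⟩)
  · rintro ⟨y, hy, hyz⟩
    have h1 : z = y := by
      have h2 : z⁻¹ * y = 1 := hyz
      exact inv_mul_eq_one.1 h2
    exact hzx (h1 ▸ hy)
  · rintro _ ⟨_, ⟨i, rfl⟩, rfl⟩ a ha ha1
    have hzN : z ∈ (N a : Set G) := by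
      refine closure_minimal ?_ (hN a ha1).1 hz
      rintro _ ⟨j, rfl⟩
      exact (hxH j).2 a ha ha1
    exact (N a).mul_mem ((N a).inv_mem hzN) ((hxH i).2 a ha ha1)

omit [Group G] [IsTopologicalGroup G] [T2Space G] in
/-- A union of blocks is discrete. -/
theorem isDiscrete_blocks {I : Type u} [LinearOrder I] (D : I → Set G) (S : Set I)
    (F : G → Set G) (hD : ∀ i ∈ S, IsDiscrete (D i))
    (hF : ∀ i ∈ S, ∀ d ∈ D i, IsClosed (F d) ∧ d ∉ F d)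
    (h1 : ∀ i ∈ S, ∀ j ∈ S, i < j → ∀ d ∈ D i, D j ⊆ F d)
    (h2 : ∀ j ∈ S, Disjoint (D j) (closure (⋃ i : Iio j, D i))) :
    IsDiscrete (⋃ i ∈ S, D i) := by
  rw [isDiscrete_iff_forall_mem_exists_isOpen]
  intro d hd
  obtain ⟨i, hi, hdi⟩ := mem_iUnion₂.1 hd
  obtain ⟨O, hO, hOd⟩ := isDiscrete_iff_forall_mem_exists_isOpen.1 (hD i hi) d hdi
  have hdO : d ∈ O ∩ D i := by rw [hOd]; rfl
  refine ⟨O ∩ (F d)ᶜ ∩ (closure (⋃ k : Iio i, D k))ᶜ,
    (hO.inter (hF i hi d hdi).1.isOpen_compl).inter isClosed_closure.isOpen_compl,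
    Subset.antisymm ?_ ?_⟩
  · rintro e ⟨⟨⟨heO, heF⟩, hecl⟩, he⟩
    obtain ⟨j, hj, hej⟩ := mem_iUnion₂.1 he
    rcases lt_trichotomy i j with hij | rfl | hij
    · exact absurd (h1 i hi j hj hij d hdi hej) heF
    · rw [← hOd]
      exact ⟨heO, hej⟩
    · exact absurd (subset_closure (mem_iUnion.2 ⟨⟨j, hij⟩, hej⟩)) hecl
  · rintro _ rfl
    exact ⟨⟨⟨hdO.1, (hF i hi _ hdi).2⟩, fun hh => Set.disjoint_left.1 (h2 i hi) hdi hh⟩, hd⟩

/-- Many blocks. -/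
theorem exists_blocks (h : DiscretelyLindelof (CoDiagonal G)) (N : G → Subgroup G)
    (hN : ∀ g, g ≠ 1 → IsClosed (N g : Set G) ∧ g ∉ N g) {l : Cardinal.{u}} (hl1 : ℵ_ 1 < l)
    (hl : ∀ A : Set G, #A < l → ∃ x, x ≠ 1 ∧ ∀ a ∈ A, a ≠ 1 → x ∈ N a) {κ : Cardinal.{u}}
    (hκ : κ ≤ l) :
    ∃ D : κ.ord.ToType → Set G, (∀ i, (1 : G) ∈ closure (D i)) ∧
      (∀ i j, i ≠ j → Disjoint (D i) (D j)) ∧ IsDiscrete (⋃ i, D i) := by
  classical
  have hl0 : ℵ₀ ≤ l := (aleph0_le_aleph 1).trans hl1.le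
  let good : ∀ i : κ.ord.ToType, (Iio i → Set G) → Set G → Prop := fun i f Y =>
    IsDiscrete Y ∧ #Y ≤ ℵ_ 1 ∧ (1 : G) ∈ closure Y ∧ (1 : G) ∉ Y ∧
      (∀ j : Iio i, ∀ d ∈ f j, Y ⊆ N d) ∧ Disjoint Y (closure (⋃ j : Iio i, f j))
  let P : ∀ i : κ.ord.ToType, (Iio i → Set G) → Set G → Prop := fun i f Y =>
    IsDiscrete (⋃ j : Iio i, f j) → (∀ j, #(f j) ≤ ℵ_ 1) → (∀ j, (1 : G) ∉ f j) → good i f Y
  obtain ⟨D, hD⟩ := exists_rec P (by
    intro i f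
    by_cases hf : IsDiscrete (⋃ j : Iio i, f j) ∧ (∀ j, #(f j) ≤ ℵ_ 1) ∧ (∀ j, (1 : G) ∉ f j)
    swap
    · exact ⟨∅, fun h1 h2 h3 => absurd ⟨h1, h2, h3⟩ hf⟩
    obtain ⟨hf1, hf2, hf3⟩ := hf
    obtain ⟨r, hr, hcov⟩ := (isLindelof_closure_diff h hf1 1).elim_countable_subcover
      (fun g : ({1}ᶜ : Set G) => ((N g : Set G))ᶜ) (fun g => (hN g g.2).1.isOpen_compl) (by
        rintro y ⟨-, hy⟩
        exact mem_iUnion.2 ⟨⟨y, hy⟩, (hN y hy).2⟩)
    obtain ⟨Y, hY1, hY2, hY3, hY4, hY5⟩ := exists_block h N hN hl1 hl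
      ((⋃ j : Iio i, f j) ∪ Subtype.val '' r) (by
        refine (Cardinal.mk_union_le _ _).trans_lt (Cardinal.add_lt_of_lt hl0 ?_ ?_)
        · refine (Cardinal.mk_iUnion_le_sum_mk).trans_lt ?_
          refine (Cardinal.sum_le_sum _ (fun _ => ℵ_ 1) hf2).trans_lt ?_
          rw [Cardinal.sum_const']
          exact Cardinal.mul_lt_of_lt hl0 ((mk_Iio_lt_of_ord i).trans_le hκ) hl1
        · exact (Cardinal.mk_le_aleph0_iff.2 (hr.image _).to_subtype).trans_lt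
            (aleph0_lt_aleph_one.trans hl1))
    refine ⟨Y, fun _ _ _ => ⟨hY1, hY2, hY3, hY4, fun j d hd y hy => ?_, ?_⟩⟩
    · exact hY5 y hy d (Or.inl (mem_iUnion.2 ⟨j, hd⟩)) (fun hh => hf3 j (hh ▸ hd))
    · rw [Set.disjoint_left]
      intro y hy hycl
      have hy1 : y ≠ 1 := fun hh => hY4 (hh ▸ hy)
      obtain ⟨g, hg, hyg⟩ := mem_iUnion₂.1 (hcov ⟨hycl, hy1⟩)
      exact hyg (hY5 y hy g (Or.inr ⟨g, hg, rfl⟩) g.2))
  have hgood : ∀ i, good i (fun j => D j) (D i) := by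
    intro i
    induction i using WellFoundedLT.induction with
    | ind i ih =>
      refine hD i ?_ (fun j => (ih j j.2).2.1) (fun j => (ih j j.2).2.2.2.1)
      have h1 := isDiscrete_blocks D (Iio i) (fun d => (N d : Set G)) (fun j hj => (ih j hj).1)
        (fun j hj d hd => hN d (fun hh => (ih j hj).2.2.2.1 (hh ▸ hd)))
        (fun j hj k hk hjk d hd => (ih k hk).2.2.2.2.1 ⟨j, hjk⟩ d hd)
        (fun j hj => (ih j hj).2.2.2.2.2)
      rwa [biUnion_eq_iUnion] at h1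
  refine ⟨D, fun i => (hgood i).2.2.1, ?_, ?_⟩
  · have h1 : ∀ i j, i < j → Disjoint (D i) (D j) := by
      intro i j hij
      rw [Set.disjoint_left]
      intro d hd hdj
      exact Set.disjoint_left.1 (hgood j).2.2.2.2.2 hdj
        (subset_closure (mem_iUnion.2 ⟨⟨i, hij⟩, hd⟩))
    intro i j hij
    rcases lt_or_gt_of_ne hij with h2 | h2
    · exact h1 i j h2
    · exact (h1 j i h2).symm
  · have h1 := isDiscrete_blocks D Set.univ (fun d => (N d : Set G)) (fun j _ => (hgood j).1)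
      (fun j _ d hd => hN d (fun hh => (hgood j).2.2.2.1 (hh ▸ hd)))
      (fun j _ k _ hjk d hd => (hgood k).2.2.2.2.1 ⟨j, hjk⟩ d hd)
      (fun j _ => (hgood j).2.2.2.2.2)
    rwa [biUnion_univ] at h1

/-- With many blocks: closures of unions of few discrete sets are Lindelöf after removing `1`. -/
theorem isLindelof_closure_iUnion (h : DiscretelyLindelof (CoDiagonal G)) (N : G → Subgroup G)
    (hN : ∀ g, g ≠ 1 → IsClosed (N g : Set G) ∧ g ∉ N g) {l : Cardinal.{u}} (hl1 : ℵ_ 1 < l)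
    (hl : ∀ A : Set G, #A < l → ∃ x, x ≠ 1 ∧ ∀ a ∈ A, a ≠ 1 → x ∈ N a) {κ : Cardinal.{u}}
    (hκ : κ ≤ l) (Q : κ.ord.ToType → Set G) (hQ : ∀ i, IsDiscrete (Q i)) :
    IsLindelof (closure (⋃ i, Q i) \ {1}) := by
  classical
  obtain ⟨D, hD1, hDdis, hDdisc⟩ := exists_blocks h N hN hl1 hl hκ
  have hc1 : Continuous fun p : CoDiagonal G => p.1.1 := continuous_fst.comp continuous_subtype_val
  have hc2 : Continuous fun p : CoDiagonal G => p.1.2 := continuous_snd.comp continuous_subtype_val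
  let E : Set (CoDiagonal G) := {p | ∃ i, p.1.1 ∈ D i ∧ p.1.2 ∈ Q i}
  have hE : IsDiscrete E := by
    rw [isDiscrete_iff_forall_mem_exists_isOpen] at hDdisc ⊢
    rintro p ⟨i, hpi, hpq⟩
    obtain ⟨O, hO, hOp⟩ := hDdisc p.1.1 (mem_iUnion.2 ⟨i, hpi⟩)
    obtain ⟨O', hO', hO'p⟩ := isDiscrete_iff_forall_mem_exists_isOpen.1 (hQ i) p.1.2 hpq
    have h1 : p.1.1 ∈ O ∩ ⋃ i, D i := by rw [hOp]; rfl
    have h1' : p.1.2 ∈ O' ∩ Q i := by rw [hO'p]; rfl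
    refine ⟨{r | r.1.1 ∈ O ∧ r.1.2 ∈ O'}, (hO.preimage hc1).inter (hO'.preimage hc2),
      Subset.antisymm ?_ ?_⟩
    · rintro r ⟨⟨hrO, hrO'⟩, j, hrj, hrq⟩
      have h2 : r.1.1 ∈ O ∩ ⋃ i, D i := ⟨hrO, mem_iUnion.2 ⟨j, hrj⟩⟩
      rw [hOp, mem_singleton_iff] at h2
      have hij : i = j := by
        by_contra hne
        exact Set.disjoint_left.1 (hDdis i j hne) hpi (h2 ▸ hrj)
      subst hij
      have h3 : r.1.2 ∈ O' ∩ Q i := ⟨hrO', hrq⟩
      rw [hO'p, mem_singleton_iff] at h3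
      exact Subtype.ext (Prod.ext h2 h3)
    · rintro _ rfl
      exact ⟨⟨h1.1, h1'.1⟩, i, hpi, hpq⟩
  have hL : IsLindelof (closure E ∩ {p | p.1.1 = 1}) :=
    (h.isLindelof hE).inter_right (isClosed_singleton.preimage hc1)
  have himg : (fun p : CoDiagonal G => p.1.2) '' (closure E ∩ {p | p.1.1 = 1}) =
      closure (⋃ i, Q i) \ {1} := by
    apply Subset.antisymm
    · rintro _ ⟨p, ⟨hp, hp1⟩, rfl⟩
      have hcl : IsClosed {q : CoDiagonal G | q.1.2 ∈ closure (⋃ i, Q i)} :=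
        isClosed_closure.preimage hc2
      have hsub : E ⊆ {q : CoDiagonal G | q.1.2 ∈ closure (⋃ i, Q i)} := by
        rintro q ⟨i, -, hqi⟩
        exact subset_closure (mem_iUnion.2 ⟨i, hqi⟩)
      refine ⟨closure_minimal hsub hcl hp, fun hh => p.2 ?_⟩
      exact (show p.1.1 = 1 from hp1).trans (mem_singleton_iff.1 hh).symm
    · rintro y ⟨hy, hy1⟩
      have hy' : (1 : G) ≠ y := fun hh => hy1 hh.symm
      refine ⟨⟨(1, y), hy'⟩, ⟨?_, rfl⟩, rfl⟩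
      rw [mem_closure_iff]
      intro O hO hmem
      obtain ⟨O', hO', rfl⟩ := isOpen_induced_iff.1 hO
      obtain ⟨U, V, hU, hV, h1U, hyV, hUV⟩ := isOpen_prod_iff.1 hO' 1 y hmem
      obtain ⟨w, ⟨hwV, hw1⟩, hwQ⟩ := mem_closure_iff.1 hy (V ∩ {1}ᶜ)
        (hV.inter isOpen_compl_singleton) ⟨hyV, hy1⟩
      obtain ⟨i, hwi⟩ := mem_iUnion.1 hwQ
      obtain ⟨d, ⟨hdU, hdw⟩, hdD⟩ := mem_closure_iff.1 (hD1 i) (U ∩ {w}ᶜ)
        (hU.inter isOpen_compl_singleton) ⟨h1U, fun hh => hw1 (mem_singleton_iff.1 hh).symm⟩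
      exact ⟨⟨(d, w), fun hh => hdw hh⟩, hUV ⟨hdU, hwV⟩, i, hdD, hwi⟩
  rw [← himg]
  exact hL.image hc2

end Pool.Agent.CoDiag
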