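import Pool.Agent.Lib.MP_aae0ca_gt.Tight

/-! # `(2 ^< κ) ^ ν = 2 ^< κ` for regular `κ` and `ν < κ` (MP_aae0ca_gt) -/

open Cardinal hiding univ
open Set Topology

universe u

namespace Pool.Agent.CoDiag

theorem exists_mk_Iio_eq {κ ν : Cardinal.{u}} (h : ν < κ) : ∃ a : κ.ord.ToType, #(Iio a) = ν := by
  have hlt : ν.ord < κ.ord := Cardinal.ord_lt_ord.2 h
  have hlt' : ν.ord < Ordinal.type (α := κ.ord.ToType) (· < ·) := by
    rw [Ordinal.type_toType]; exact hlt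
  refine ⟨Ordinal.enum (α := κ.ord.ToType) (· < ·) ⟨ν.ord, hlt'⟩, ?_⟩
  have h2 := Ordinal.typein_enum (α := κ.ord.ToType) (· < ·) hlt'
  have h3 := congrArg Ordinal.card h2
  rw [Ordinal.card_typein, Cardinal.card_ord] at h3
  exact h3

theorem le_two_powerlt (κ : Cardinal.{u}) : κ ≤ 2 ^< κ := by
  refine le_of_forall_lt fun x hx => ?_
  exact (Cardinal.cantor x).trans_le (le_powerlt 2 hx)

theorem powerlt_power_le {κ ν : Cardinal.{u}} (hκ : κ.IsRegular) (hν : ν < κ) :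
    (2 ^< κ) ^ ν ≤ 2 ^< κ := by
  classical
  set P := (2 : Cardinal.{u}) ^< κ with hP
  have hκP : κ ≤ P := le_two_powerlt κ
  have hP0 : ℵ₀ ≤ P := hκ.aleph0_le.trans hκP
  let N : Type u := ν.out
  have hN : #N = ν := Cardinal.mk_out _
  let I := κ.ord.ToType
  let T : Type u := Σ a : I, Set (Iio a)
  have hPT : P ≤ #T := by
    rw [hP, powerlt_le]
    intro x hx
    obtain ⟨a, ha⟩ := exists_mk_Iio_eq hx
    rw [← ha, ← Cardinal.mk_set]
    exact Cardinal.mk_le_of_injective (f := fun s : Set (Iio a) => (⟨a, s⟩ : T))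
      (fun s t hst => eq_of_heq (Sigma.mk.inj hst).2)
  have h1 : P ^ ν ≤ #(N → T) := by
    rw [Cardinal.mk_arrow, lift_id, lift_id, hN]
    exact Cardinal.power_le_power_right hPT
  refine h1.trans ?_
  -- bound the functions `N → T`
  let S : Type u := Σ b : I, (N → Iio b × Set (Iio b))
  have hb : ∀ f : N → T, ∃ b : I, ∀ n, (f n).1 < b := by
    intro f
    obtain ⟨b, hb⟩ := exists_upper hκ (range fun n => (f n).1)
      (mk_range_le.trans_lt (by rw [hN]; exact hν))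
    exact ⟨b, fun n => hb _ ⟨n, rfl⟩⟩
  choose b hb using hb
  let φ : (N → T) → S := fun f => ⟨b f, fun n => (⟨(f n).1, hb f n⟩, {c | ∃ h : c.1 < (f n).1,
    (⟨c.1, h⟩ : Iio (f n).1) ∈ (f n).2})⟩
  have hφ : Function.Injective φ := by
    intro f g hfg
    have h1 : b f = b g := congrArg Sigma.fst hfg
    funext n
    have h2 : ∀ n, ((φ f).2 n).1.1 = (f n).1 := fun n => rfl
    have h3 : (f n).1 = (g n).1 := by
      have : ((φ f).2 n).1.1 = ((φ g).2 n).1.1 := by rw [hfg]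
      exact this
    have h4 : ∀ c : I, (∃ hc : c < b f, (⟨c, hc⟩ : Iio (b f)) ∈ ((φ f).2 n).2) ↔
        (∃ hc : c < (f n).1, (⟨c, hc⟩ : Iio (f n).1) ∈ (f n).2) := by
      intro c
      constructor
      · rintro ⟨hc, h, hh⟩
        exact ⟨h, hh⟩
      · rintro ⟨h, hh⟩
        exact ⟨h.trans (hb f n), h, hh⟩
    have h5 : ∀ c : I, (∃ hc : c < b g, (⟨c, hc⟩ : Iio (b g)) ∈ ((φ g).2 n).2) ↔
        (∃ hc : c < (g n).1, (⟨c, hc⟩ : Iio (g n).1) ∈ (g n).2) := by
      intro c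
      constructor
      · rintro ⟨hc, h, hh⟩
        exact ⟨h, hh⟩
      · rintro ⟨h, hh⟩
        exact ⟨h.trans (hb g n), h, hh⟩
    have h6 : ∀ c : I, (∃ hc : c < (φ f).1, (⟨c, hc⟩ : Iio (φ f).1) ∈ ((φ f).2 n).2) ↔
        (∃ hc : c < (φ g).1, (⟨c, hc⟩ : Iio (φ g).1) ∈ ((φ g).2 n).2) := by
      intro c
      rw [hfg]
    have h7 : ∀ c : I, (∃ hc : c < (f n).1, (⟨c, hc⟩ : Iio (f n).1) ∈ (f n).2) ↔
        (∃ hc : c < (g n).1, (⟨c, hc⟩ : Iio (g n).1) ∈ (g n).2) := fun c =>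
      (h4 c).symm.trans ((h6 c).trans (h5 c))
    generalize hfn : f n = p at h3 h7
    generalize hgn : g n = q at h3 h7
    obtain ⟨a, s⟩ := p
    obtain ⟨a', s'⟩ := q
    simp only at h3
    subst h3
    congr 1
    ext ⟨c, hc⟩
    constructor
    · intro hcs
      obtain ⟨_, h⟩ := (h7 c).1 ⟨hc, hcs⟩
      exact h
    · intro hcs
      obtain ⟨_, h⟩ := (h7 c).2 ⟨hc, hcs⟩
      exact h
  refine (Cardinal.mk_le_of_injective hφ).trans ?_
  have h2 : #S = Cardinal.sum fun b : I => #(N → Iio b × Set (Iio b)) := Cardinal.mk_sigma _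
  rw [h2]
  refine (Cardinal.sum_le_sum _ (fun _ => P) fun b => ?_).trans ?_
  · rw [Cardinal.mk_arrow, lift_id, lift_id, hN, Cardinal.mk_prod, lift_id, lift_id,
      Cardinal.mk_set]
    have hl : #(Iio b) < κ := mk_Iio_lt_of_ord b
    have h3 : #(Iio b) * 2 ^ #(Iio b) ≤ 2 ^ (#(Iio b) + #(Iio b)) := by
      rw [Cardinal.power_add]
      exact mul_le_mul' (Cardinal.cantor _).le le_rfl
    refine (Cardinal.power_le_power_right h3).trans ?_
    rw [← Cardinal.power_mul]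
    exact le_powerlt 2 (Cardinal.mul_lt_of_lt hκ.aleph0_le
      (Cardinal.add_lt_of_lt hκ.aleph0_le hl hl) hν)
  · rw [Cardinal.sum_const', mk_ord_toType]
    exact (mul_le_mul' hκP le_rfl).trans (Cardinal.mul_eq_self hP0).le

variable {X : Type u} [TopologicalSpace X] [T2Space X]

/-- No free sequence of length `κ` implies `|X| ≤ 2 ^< κ`. -/
theorem card_le_powerlt (h : DiscretelyLindelof (CoDiagonal X)) {κ : Cardinal.{u}}
    (hκ : κ.IsRegular) (hκ' : ℵ₀ < κ) (hfree : ∀ x : κ.ord.ToType → X, ¬ IsFreeSequence x) :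
    #X ≤ 2 ^< κ :=
  card_le_of_no_free h hκ hκ' (by rw [← Cardinal.two_power_aleph0]; exact le_powerlt 2 hκ')
    (fun _ hν => powerlt_power_le hκ hν) hfree

end Pool.Agent.CoDiag
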