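import Pool.Agent.Lib.MP_aae0ca_gt.Linear
import Pool.Agent.Lib.MP_aae0ca_gt.Powerlt

/-! # Covers of the co-diagonal by boxes (MP_aae0ca_gt) -/

open Cardinal hiding univ
open Set Topology

universe u

namespace Pool.Agent.CoDiag

variable {X : Type u} [TopologicalSpace X]

/-- A box of two disjoint open sets, as a subset of the co-diagonal. -/
def IsBox (B : Set (CoDiagonal X)) : Prop :=
  ∃ U V : Set X, IsOpen U ∧ IsOpen V ∧ Disjoint U V ∧ B = {q | q.1.1 ∈ U ∧ q.1.2 ∈ V}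

theorem IsBox.isOpen {B : Set (CoDiagonal X)} (hB : IsBox B) : IsOpen B := by
  obtain ⟨U, V, hU, hV, -, rfl⟩ := hB
  exact (hU.preimage (continuous_fst.comp continuous_subtype_val)).inter
    (hV.preimage (continuous_snd.comp continuous_subtype_val))

theorem card_le_of_boxes (𝒱 : Set (Set (CoDiagonal X))) (h𝒱 : ∀ B ∈ 𝒱, IsBox B)
    (hcov : ⋃₀ 𝒱 = Set.univ) : #X ≤ 2 ^ #𝒱 := by
  classical
  have hch : ∀ B : 𝒱, ∃ U V : Set X, Disjoint U V ∧
      (B : Set (CoDiagonal X)) = {q | q.1.1 ∈ U ∧ q.1.2 ∈ V} := by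
    intro B
    obtain ⟨U, V, -, -, h1, h2⟩ := h𝒱 B B.2
    exact ⟨U, V, h1, h2⟩
  choose U V hdis hB using hch
  rw [← Cardinal.mk_set]
  refine Cardinal.mk_le_of_injective (f := fun x : X => {B : 𝒱 | x ∈ U B}) fun x y hxy => ?_
  by_contra hne
  obtain ⟨B, hBV, hmem⟩ := hcov.ge (mem_univ (⟨(x, y), hne⟩ : CoDiagonal X))
  replace hmem : x ∈ U ⟨B, hBV⟩ ∧ y ∈ V ⟨B, hBV⟩ := by
    have h0 : (⟨(x, y), hne⟩ : CoDiagonal X) ∈ ((⟨B, hBV⟩ : 𝒱) : Set (CoDiagonal X)) := hmem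
    rw [hB ⟨B, hBV⟩] at h0
    exact h0
  have h1 : (⟨B, hBV⟩ : 𝒱) ∈ {B : 𝒱 | x ∈ U B} := hmem.1
  have h2 : ({B : 𝒱 | x ∈ U B} : Set 𝒱) = {B : 𝒱 | y ∈ U B} := hxy
  rw [h2] at h1
  exact Set.disjoint_left.1 (hdis _) h1 hmem.2

theorem of_boxes (h : DiscretelyLindelof (CoDiagonal X)) (𝒰 : Set (Set (CoDiagonal X)))
    (h𝒰 : ∀ B ∈ 𝒰, IsBox B) (hcov : ⋃₀ 𝒰 = Set.univ) (hc : #𝒰 ≤ 𝔠) :
    #X ≤ 2 ^< 𝔠 ∧ (𝔠 < (ℵ_ Ordinal.omega0 : Cardinal.{u}) → #X ≤ 𝔠) := by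
  constructor
  · have h1 : ∃ 𝒱 ⊆ 𝒰, #𝒱 < 𝔠 ∧ ⋃₀ 𝒱 = Set.univ := by
      rcases hc.lt_or_eq with h1 | h1
      · exact ⟨𝒰, Subset.rfl, h1, hcov⟩
      · obtain ⟨𝒱, h𝒱, hlt, hcov'⟩ := exists_lt_subcover h 𝒰 (fun B hB => (h𝒰 B hB).isOpen) hcov
          (by
            rw [h1, ← Cardinal.two_power_aleph0]
            exact Cardinal.lt_cof_ord_power le_rfl Cardinal.one_lt_two)
        exact ⟨𝒱, h𝒱, h1 ▸ hlt, hcov'⟩
    obtain ⟨𝒱, h𝒱, hlt, hcov'⟩ := h1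
    exact (card_le_of_boxes 𝒱 (fun B hB => h𝒰 B (h𝒱 hB)) hcov').trans (le_powerlt 2 hlt)
  · intro hω
    obtain ⟨𝒱, h𝒱, hlt, hcov'⟩ := exists_countable_subcover h 𝒰 (fun B hB => (h𝒰 B hB).isOpen)
      hcov (hc.trans_lt hω)
    refine (card_le_of_boxes 𝒱 (fun B hB => h𝒰 B (h𝒱 hB)) hcov').trans ?_
    rw [← Cardinal.two_power_aleph0]
    exact Cardinal.power_le_power_left two_ne_zero hlt

theorem tightness_codiagonal {ν : Cardinal.{u}} (ht : TightnessLE (X × X) ν) :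
    TightnessLE (CoDiagonal X) ν := by
  intro A z hz
  rw [closure_subtype] at hz
  obtain ⟨B, hB, hBν, hzB⟩ := ht _ _ hz
  refine ⟨Subtype.val ⁻¹' B, ?_, ?_, ?_⟩
  · intro a ha
    obtain ⟨a', ha', haa⟩ := hB ha
    rwa [Subtype.val_injective haa] at ha'
  · exact (Cardinal.mk_preimage_of_injective _ _ Subtype.val_injective).trans hBν
  · rw [closure_subtype]
    have : Subtype.val '' (Subtype.val ⁻¹' B : Set (CoDiagonal X)) = B := by
      rw [image_preimage_eq_inter_range, inter_eq_left]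
      intro b hb
      obtain ⟨a, -, rfl⟩ := hB hb
      exact ⟨a, rfl⟩
    rw [this]
    exact hzB

variable [T2Space X]

theorem sUnion_isBox : ⋃₀ {B : Set (CoDiagonal X) | IsBox B} = Set.univ := by
  rw [eq_univ_iff_forall]
  intro p
  obtain ⟨U, V, hU, hV, h1, h2, hdis⟩ := t2_separation p.2
  exact ⟨_, ⟨U, V, hU, hV, hdis, rfl⟩, h1, h2⟩

theorem of_tightness_square (h : DiscretelyLindelof (CoDiagonal X))
    (ht : TightnessLE (X × X) (𝔠 : Cardinal.{u})) :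
    #X ≤ 2 ^< 𝔠 ∧ (𝔠 < (ℵ_ Ordinal.omega0 : Cardinal.{u}) → #X ≤ 𝔠) := by
  obtain ⟨𝒱, h𝒱, hc, hcov⟩ := exists_subcover_of_tightness h aleph0_le_continuum
    (tightness_codiagonal ht) {B : Set (CoDiagonal X) | IsBox B} (fun B hB => IsBox.isOpen hB)
    sUnion_isBox
  exact of_boxes h 𝒱 (fun B hB => h𝒱 hB) hcov hc

theorem of_dense (h : DiscretelyLindelof (CoDiagonal X)) (D : Set X) (hD : Dense D)
    (hDc : (2 : Cardinal.{u}) ^ #D ≤ 𝔠) :
    #X ≤ 2 ^< 𝔠 ∧ (𝔠 < (ℵ_ Ordinal.omega0 : Cardinal.{u}) → #X ≤ 𝔠) := by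
  classical
  let R : Set D → Set X := fun A => interior (closure (Subtype.val '' A))
  let box : Set D × Set D → Set (CoDiagonal X) := fun p =>
    {q | q.1.1 ∈ R p.1 ∧ q.1.2 ∈ R p.2}
  have hR : ∀ U : Set X, IsOpen U → R (Subtype.val ⁻¹' U) = interior (closure U) := by
    intro U hU
    have h1 : Subtype.val '' (Subtype.val ⁻¹' U : Set D) = D ∩ U := Subtype.image_preimage_coe _ _
    change interior (closure (Subtype.val '' (Subtype.val ⁻¹' U : Set D))) = _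
    rw [h1, inter_comm]
    congr 1
    exact Subset.antisymm (closure_mono inter_subset_left)
      (closure_minimal (hD.open_subset_closure_inter hU) isClosed_closure)
  let 𝒰 : Set (Set (CoDiagonal X)) := {B | IsBox B} ∩ range box
  refine of_boxes h 𝒰 (fun B hB => hB.1) ?_ ?_
  · rw [eq_univ_iff_forall]
    intro p
    obtain ⟨U, V, hU, hV, h1, h2, hdis⟩ := t2_separation p.2
    refine ⟨box (Subtype.val ⁻¹' U, Subtype.val ⁻¹' V), ⟨⟨R _, R _, isOpen_interior,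
      isOpen_interior, ?_, rfl⟩, ⟨_, rfl⟩⟩, ?_⟩
    · rw [hR U hU, hR V hV]
      have h3 : Disjoint (interior (closure U)) V := by
        refine Disjoint.mono_left interior_subset ?_
        exact hdis.closure_left hV
      have h4 : Disjoint (interior (closure U)) (closure V) := h3.closure_right isOpen_interior
      exact h4.mono_right interior_subset
    · change p.1.1 ∈ R _ ∧ p.1.2 ∈ R _
      rw [hR U hU, hR V hV]
      exact ⟨hU.subset_interior_closure h1, hV.subset_interior_closure h2⟩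
  · refine (Cardinal.mk_le_mk_of_subset inter_subset_right).trans (mk_range_le.trans ?_)
    rw [Cardinal.mk_prod, Cardinal.mk_set, lift_id]
    exact (mul_le_mul' hDc hDc).trans (Cardinal.mul_eq_self aleph0_le_continuum).le

/-- Tightness of the square below `ℵ_ω`: the co-diagonal is Lindelöf. -/
theorem lindelof_of_tightness_square (h : DiscretelyLindelof (CoDiagonal X)) {ν : Cardinal.{u}}
    (hν : ℵ₀ ≤ ν) (hνω : ν < ℵ_ Ordinal.omega0) (ht : TightnessLE (X × X) ν) :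
    LindelofSpace (CoDiagonal X) ∧ #X ≤ 𝔠 := by
  classical
  have key : ∀ 𝒰 : Set (Set (CoDiagonal X)), (∀ U ∈ 𝒰, IsOpen U) → ⋃₀ 𝒰 = Set.univ →
      ∃ 𝒱 ⊆ 𝒰, #𝒱 ≤ ℵ₀ ∧ ⋃₀ 𝒱 = Set.univ := by
    intro 𝒰 hU hcov
    obtain ⟨𝒱, h𝒱, hc, hcov'⟩ := exists_subcover_of_tightness h hν
      (tightness_codiagonal ht) 𝒰 hU hcov
    obtain ⟨𝒲, h𝒲, h1, h2⟩ := exists_countable_subcover h 𝒱 (fun U hU' => hU U (h𝒱 hU')) hcov'
      (hc.trans_lt hνω)
    exact ⟨𝒲, h𝒲.trans h𝒱, h1, h2⟩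
  constructor
  · rw [← isLindelof_univ_iff]
    refine isLindelof_of_countable_subcover fun U hU hcov => ?_
    obtain ⟨𝒱, h𝒱, h1, h2⟩ := key (range U) (by rintro _ ⟨i, rfl⟩; exact hU i)
      (by rw [sUnion_range]; exact univ_subset_iff.1 hcov)
    have hch : ∀ V : 𝒱, ∃ i, U i = V := fun V => h𝒱 V.2
    choose i hi using hch
    have hcount : Countable 𝒱 := Cardinal.mk_le_aleph0_iff.1 h1
    refine ⟨range i, countable_range i, ?_⟩
    intro x hx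
    obtain ⟨V, hV, hxV⟩ := h2.ge hx
    refine mem_iUnion₂.2 ⟨i ⟨V, hV⟩, ⟨_, rfl⟩, ?_⟩
    rw [hi]
    exact hxV
  · obtain ⟨𝒱, h𝒱, h1, h2⟩ := key {B : Set (CoDiagonal X) | IsBox B}
      (fun B hB => IsBox.isOpen hB) sUnion_isBox
    refine (card_le_of_boxes 𝒱 (fun B hB => h𝒱 hB) h2).trans ?_
    rw [← Cardinal.two_power_aleph0]
    exact Cardinal.power_le_power_left two_ne_zero h1

end Pool.Agent.CoDiag
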