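import Mathlib

/-! # Two general lemmas: transfinite choice and closing off (MP_aae0ca_gt) -/

open Cardinal Set

universe u

namespace Pool.Agent.CoDiag

/-- Transfinite recursion with choices. -/
theorem exists_rec {I : Type u} [LinearOrder I] [WellFoundedLT I] {X : Type u}
    (P : ∀ i : I, (Iio i → X) → X → Prop) (h : ∀ i f, ∃ y, P i f y) :
    ∃ x : I → X, ∀ i, P i (fun j => x j) (x i) := by
  classical
  let F : ∀ i : I, (∀ j, j < i → X) → X := fun i prev =>
    Classical.choose (h i (fun j => prev j.1 j.2))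
  refine ⟨(wellFounded_lt (α := I)).fix F, fun i => ?_⟩
  have h1 := WellFounded.fix_eq (wellFounded_lt (α := I)) F i
  rw [h1]
  exact Classical.choose_spec (h i (fun j => (wellFounded_lt (α := I)).fix F j.1))

theorem mk_Iio_lt_of_ord {κ : Cardinal.{u}} (a : κ.ord.ToType) : #(Iio a) < κ := by
  simpa using Cardinal.mk_Iio_lt a (by simp)

/-- Closing off: if every set of fewer than `κ` points is assigned at most `μ` points and
`μ ^ ν ≤ μ` for all `ν < κ`, then some set of at most `μ` points is closed. -/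
theorem exists_closed {X : Type u} (κ μ : Cardinal.{u}) (hκ : ℵ₀ ≤ κ) (hμ0 : ℵ₀ ≤ μ)
    (hμ : ∀ ν < κ, μ ^ ν ≤ μ) (Φ : Set X → Set X) (hΦ : ∀ A : Set X, #A < κ → #(Φ A) ≤ μ) :
    ∃ H : Set X, #H ≤ μ ∧ ∀ A ⊆ H, #A < κ → Φ A ⊆ H := by
  classical
  rcases isEmpty_or_nonempty X with hX | ⟨⟨x0⟩⟩
  · refine ⟨∅, by simp, fun A _ _ => ?_⟩
    intro x
    exact (IsEmpty.false x).elim
  have hκμ : κ ≤ μ := by
    rw [← not_lt]
    intro hlt
    have h1 := hμ μ hlt
    have h2 : (2 : Cardinal.{u}) ^ μ ≤ μ ^ μ :=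
      Cardinal.power_le_power_right ((Cardinal.natCast_lt_aleph0 (n := 2)).le.trans hμ0)
    exact absurd (h2.trans h1) (not_le.2 (Cardinal.cantor μ))
  let J := κ.ord.ToType
  let T : Type u := μ.out
  have hT : #T = μ := Cardinal.mk_out μ
  -- enumeration of `Φ A`
  have henum : ∀ A : Set X, ∃ e : T → X, #A < κ → Φ A ⊆ range e := by
    intro A
    by_cases hA : #A < κ
    · rcases (Φ A).eq_empty_or_nonempty with hE | hE
      · exact ⟨fun _ => x0, fun _ => by rw [hE]; exact empty_subset _⟩
      · have h1 : #(Φ A) ≤ #T := by rw [hT]; exact hΦ A hA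
        obtain ⟨g⟩ := Cardinal.le_def _ _ |>.1 h1
        have : Nonempty (Φ A) := hE.to_subtype
        refine ⟨fun t => (Function.invFun g t : Φ A), fun _ x hx => ?_⟩
        refine ⟨g ⟨x, hx⟩, ?_⟩
        change ((Function.invFun g (g ⟨x, hx⟩) : Φ A) : X) = x
        rw [Function.leftInverse_invFun g.injective]
    · exact ⟨fun _ => x0, fun h => absurd h hA⟩
  choose e he using henum
  let β : (J × T) → Type u := fun a => Iio a.1
  let ev : WType β → X := fun w => WType.elim X (fun p => e (range p.2) p.1.2) w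
  have hev : ∀ (a : J × T) (f : β a → WType β),
      ev (WType.mk a f) = e (range fun b => ev (f b)) a.2 := fun a f => rfl
  refine ⟨range ev, ?_, ?_⟩
  · refine mk_range_le.trans (WType.cardinalMk_le_of_le ?_)
    refine (Cardinal.sum_le_sum _ (fun _ => μ) fun a => ?_).trans ?_
    · exact hμ _ (mk_Iio_lt_of_ord a.1)
    · rw [Cardinal.sum_const', mk_prod, lift_id, lift_id, mk_ord_toType, hT]
      exact (mul_le_mul' (mul_le_mul' hκμ le_rfl) le_rfl).trans
        (by rw [mul_eq_self hμ0, mul_eq_self hμ0])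
  · intro A hAH hA x hx
    -- an initial segment of `J` of the cardinality of `A`
    have h1 : ∃ a : J, #(Iio a) = #A := by
      have hlt : (#A).ord < κ.ord := Cardinal.ord_lt_ord.2 hA
      have hlt' : (#A).ord < Ordinal.type (α := J) (· < ·) := by
        rw [Ordinal.type_toType]; exact hlt
      refine ⟨Ordinal.enum (α := J) (· < ·) ⟨(#A).ord, hlt'⟩, ?_⟩
      have h2 := Ordinal.typein_enum (α := J) (· < ·) hlt'
      have h3 := congrArg Ordinal.card h2
      rw [Ordinal.card_typein, Cardinal.card_ord] at h3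
      exact h3
    obtain ⟨a, ha⟩ := h1
    obtain ⟨φ⟩ := Cardinal.eq.1 ha
    have h2 : ∀ b : Iio a, ∃ w : WType β, ev w = (φ b : X) := fun b => hAH (φ b).2
    choose g hg using h2
    have h3 : range (fun b : Iio a => ev (g b)) = A := by
      ext y
      constructor
      · rintro ⟨b, rfl⟩
        simp only [hg]
        exact (φ b).2
      · intro hy
        refine ⟨φ.symm ⟨y, hy⟩, ?_⟩
        simp only [hg, Equiv.apply_symm_apply]
    obtain ⟨t, ht⟩ := he A hA hx
    refine ⟨WType.mk (a, t) g, ?_⟩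
    rw [hev]
    simp only
    rw [h3, ht]

end Pool.Agent.CoDiag
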