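import Mathlib

/-! # Spaces with a discretely Lindelöf co-diagonal: definitions (MP_aae0ca_gt) -/

open Cardinal Set Topology

universe u

namespace Pool.Agent.CoDiag

/-- A space is discretely Lindelöf if the closure of every discrete subset is Lindelöf. -/
def DiscretelyLindelof (Z : Type u) [TopologicalSpace Z] : Prop :=
  ∀ D : Set Z, DiscreteTopology D → LindelofSpace (closure D)

/-- The co-diagonal of `X`: the complement of the diagonal in `X × X`, with the subspace topology
of the product topology. -/
abbrev CoDiagonal (X : Type u) : Type u := {p : X × X // p.1 ≠ p.2}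

/-- A free sequence of length `κ` in `X` (`κ` a cardinal, regarded as an initial ordinal): no point
is in the closure of an initial segment and of the corresponding final segment. -/
def IsFreeSequence {X : Type u} [TopologicalSpace X] {κ : Cardinal.{u}}
    (x : κ.ord.ToType → X) : Prop :=
  ∀ a, Disjoint (closure (x '' Iio a)) (closure (x '' Ici a))

/-- The tightness of `X` is at most `ν`. -/
def TightnessLE (X : Type u) [TopologicalSpace X] (ν : Cardinal.{u}) : Prop :=
  ∀ (A : Set X) (x : X), x ∈ closure A → ∃ B ⊆ A, #B ≤ ν ∧ x ∈ closure B

end Pool.Agent.CoDiag
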