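import Pool.Agent.Lib.MP_aae0ca_gt.Closing

/-! # A transfinite discrete sequence (MP_aae0ca_gt) -/

open Cardinal Set Topology

universe u

namespace Pool.Agent.CoDiag

theorem mk_Iic_lt_of_ord {κ : Cardinal.{u}} (hκ : ℵ₀ ≤ κ) (a : κ.ord.ToType) : #(Iic a) < κ := by
  have h1 : (Iic a : Set κ.ord.ToType) = insert a (Iio a) := by
    ext b; simp [le_iff_eq_or_lt]
  rw [h1]
  refine (Cardinal.mk_insert_le).trans_lt ?_
  exact Cardinal.add_lt_of_lt hκ (mk_Iio_lt_of_ord a) (Cardinal.one_lt_aleph0.trans_le hκ)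

/-- The main recursion.  A family of open sets no small part of which covers `H`, while closures of
small discrete sets are covered by small parts, gives a long discrete, in fact free, sequence. -/
theorem master {X : Type u} [TopologicalSpace X] {κ : Cardinal.{u}} (hκ : κ.IsRegular)
    (E H : Set X) (𝒰 : Set (Set X)) (hopen : ∀ U ∈ 𝒰, IsOpen U) (hHE : H ⊆ E)
    (hcov : ∀ D ⊆ H, IsDiscrete D → #D < κ → ∃ 𝒱 ⊆ 𝒰, #𝒱 < κ ∧ closure D ∩ E ⊆ ⋃₀ 𝒱)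
    (hno : ∀ 𝒱 ⊆ 𝒰, #𝒱 < κ → ¬ H ⊆ ⋃₀ 𝒱) (𝒜 : κ.ord.ToType → Set (Set X))
    (h𝒜 : ∀ i, 𝒜 i ⊆ 𝒰) (h𝒜κ : ∀ i, #(𝒜 i) < κ) :
    ∃ x : κ.ord.ToType → X, (∀ i, x i ∈ H) ∧ Function.Injective x ∧ IsDiscrete (range x) ∧
      (∀ a, Disjoint (closure (x '' Iio a) ∩ E) (closure (x '' Ici a))) ∧
      ∀ i, x i ∉ ⋃₀ 𝒜 i := by
  classical
  have hS : ∀ D : Set X, ∃ 𝒱 : Set (Set X), 𝒱 ⊆ 𝒰 ∧ #𝒱 < κ ∧
      (D ⊆ H → IsDiscrete D → #D < κ → closure D ∩ E ⊆ ⋃₀ 𝒱) := by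
    intro D
    by_cases h : D ⊆ H ∧ IsDiscrete D ∧ #D < κ
    · obtain ⟨𝒱, h1, h2, h3⟩ := hcov D h.1 h.2.1 h.2.2
      exact ⟨𝒱, h1, h2, fun _ _ _ => h3⟩
    · exact ⟨∅, empty_subset _, by simpa using hκ.pos, fun h1 h2 h3 => absurd ⟨h1, h2, h3⟩ h⟩
  choose S hSU hSκ hSc using hS
  let P : ∀ i : κ.ord.ToType, (Iio i → X) → X → Prop := fun i f y =>
    y ∈ H ∧ (∀ j ≤ i, y ∉ ⋃₀ S (f '' {k | k.1 < j})) ∧
      (∀ j < i, y ∉ ⋃₀ S (f '' {k | k.1 ≤ j})) ∧ y ∉ ⋃₀ 𝒜 i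
  have hP : ∀ i f, ∃ y, P i f y := by
    intro i f
    have h1 := hno (((⋃ j : Iic i, S (f '' {k | k.1 < j.1})) ∪
        ⋃ j : Iio i, S (f '' {k | k.1 ≤ j.1})) ∪ 𝒜 i)
      (union_subset (union_subset (iUnion_subset fun j => hSU _) (iUnion_subset fun j => hSU _))
        (h𝒜 i)) (by
        refine (Cardinal.mk_union_le _ _).trans_lt (Cardinal.add_lt_of_lt hκ.aleph0_le ?_ (h𝒜κ i))
        refine (Cardinal.mk_union_le _ _).trans_lt (Cardinal.add_lt_of_lt hκ.aleph0_le ?_ ?_)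
        · exact (card_iUnion_lt_iff_forall_of_isRegular hκ (mk_Iic_lt_of_ord hκ.aleph0_le i)).2
            fun j => hSκ _
        · exact (card_iUnion_lt_iff_forall_of_isRegular hκ (mk_Iio_lt_of_ord i)).2
            fun j => hSκ _)
    rw [not_subset] at h1
    obtain ⟨y, hy, hy2⟩ := h1
    refine ⟨y, hy, fun j hj hc => hy2 ?_, fun j hj hc => hy2 ?_, fun hc => hy2 ?_⟩
    · obtain ⟨U, hU, hyU⟩ := hc
      exact ⟨U, Or.inl (Or.inl (mem_iUnion.2 ⟨⟨j, hj⟩, hU⟩)), hyU⟩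
    · obtain ⟨U, hU, hyU⟩ := hc
      exact ⟨U, Or.inl (Or.inr (mem_iUnion.2 ⟨⟨j, hj⟩, hU⟩)), hyU⟩
    · obtain ⟨U, hU, hyU⟩ := hc
      exact ⟨U, Or.inr hU, hyU⟩
  obtain ⟨x, hx⟩ := exists_rec P hP
  have e1 : ∀ i j : κ.ord.ToType, j ≤ i →
      (fun k : Iio i => x k) '' {k | k.1 < j} = x '' Iio j := by
    intro i j hj
    ext y
    constructor
    · rintro ⟨k, hk, rfl⟩
      exact ⟨k.1, hk, rfl⟩
    · rintro ⟨k, hk, rfl⟩
      exact ⟨⟨k, lt_of_lt_of_le hk hj⟩, hk, rfl⟩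
  have e2 : ∀ i j : κ.ord.ToType, j < i →
      (fun k : Iio i => x k) '' {k | k.1 ≤ j} = x '' Iic j := by
    intro i j hj
    ext y
    constructor
    · rintro ⟨k, hk, rfl⟩
      exact ⟨k.1, hk, rfl⟩
    · rintro ⟨k, hk, rfl⟩
      exact ⟨⟨k, lt_of_le_of_lt hk hj⟩, hk, rfl⟩
  have hH : ∀ i, x i ∈ H := fun i => (hx i).1
  have hE : ∀ i, x i ∈ E := fun i => hHE (hH i)
  have h1 : ∀ i j, j ≤ i → x i ∉ ⋃₀ S (x '' Iio j) := by
    intro i j hj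
    have := (hx i).2.1 j hj
    rwa [e1 i j hj] at this
  have h2 : ∀ i j, j < i → x i ∉ ⋃₀ S (x '' Iic j) := by
    intro i j hj
    have := (hx i).2.2.1 j hj
    rwa [e2 i j hj] at this
  have hAH : ∀ T : Set κ.ord.ToType, x '' T ⊆ H := by
    rintro T _ ⟨k, -, rfl⟩
    exact hH k
  -- every point is isolated in the whole sequence
  have iso : ∀ i, ∃ O : Set X, IsOpen O ∧ x i ∈ O ∧ ∀ k, x k ∈ O → k = i := by
    intro i
    induction i using WellFoundedLT.induction with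
    | ind i ih =>
      have hA : IsDiscrete (x '' Iio i) := by
        rw [isDiscrete_iff_forall_mem_exists_isOpen]
        rintro _ ⟨j, hj, rfl⟩
        obtain ⟨O, hO, hj1, hj2⟩ := ih j hj
        refine ⟨O, hO, Subset.antisymm ?_ ?_⟩
        · rintro _ ⟨hk, ⟨k, -, rfl⟩⟩
          rw [hj2 k hk]; exact rfl
        · rintro _ rfl
          exact ⟨hj1, ⟨j, hj, rfl⟩⟩
      have hAc : closure (x '' Iio i) ∩ E ⊆ ⋃₀ S (x '' Iio i) :=
        hSc _ (hAH _) hA (mk_image_le.trans_lt (mk_Iio_lt_of_ord i))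
      have hN : x i ∉ closure (x '' Iio i) := fun h => h1 i i le_rfl (hAc ⟨h, hE i⟩)
      have hB : IsDiscrete (x '' Iic i) := by
        rw [isDiscrete_iff_forall_mem_exists_isOpen]
        rintro _ ⟨j, hj, rfl⟩
        rcases (mem_Iic.1 hj).lt_or_eq with hj' | rfl
        · obtain ⟨O, hO, hj1, hj2⟩ := ih j hj'
          refine ⟨O, hO, Subset.antisymm ?_ ?_⟩
          · rintro _ ⟨hk, ⟨k, -, rfl⟩⟩
            rw [hj2 k hk]; exact rfl
          · rintro _ rfl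
            exact ⟨hj1, ⟨j, hj, rfl⟩⟩
        · refine ⟨(closure (x '' Iio j))ᶜ, isClosed_closure.isOpen_compl, Subset.antisymm ?_ ?_⟩
          · rintro _ ⟨hk, ⟨k, hkj, rfl⟩⟩
            rcases (mem_Iic.1 hkj).lt_or_eq with hk' | rfl
            · exact absurd (subset_closure (mem_image_of_mem x (mem_Iio.2 hk'))) hk
            · exact rfl
          · rintro _ rfl
            exact ⟨hN, ⟨j, hj, rfl⟩⟩
      have hBc : closure (x '' Iic i) ∩ E ⊆ ⋃₀ S (x '' Iic i) :=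
        hSc _ (hAH _) hB (mk_image_le.trans_lt (mk_Iic_lt_of_ord hκ.aleph0_le i))
      refine ⟨⋃₀ S (x '' Iic i) ∩ (closure (x '' Iio i))ᶜ,
        (isOpen_sUnion fun U hU => hopen U (hSU _ hU)).inter isClosed_closure.isOpen_compl,
        ⟨hBc ⟨subset_closure ⟨i, mem_Iic.2 le_rfl, rfl⟩, hE i⟩, hN⟩, ?_⟩
      rintro k ⟨hk1, hk2⟩
      rcases lt_trichotomy k i with h | h | h
      · exact absurd (subset_closure (mem_image_of_mem x (mem_Iio.2 h))) hk2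
      · exact h
      · exact absurd hk1 (h2 k i h)
  have hinj : Function.Injective x := by
    intro j k hjk
    obtain ⟨O, -, hj1, hj2⟩ := iso k
    exact hj2 j (hjk ▸ hj1)
  have hdisc : ∀ T : Set κ.ord.ToType, IsDiscrete (x '' T) := by
    intro T
    rw [isDiscrete_iff_forall_mem_exists_isOpen]
    rintro _ ⟨j, hj, rfl⟩
    obtain ⟨O, hO, hj1, hj2⟩ := iso j
    refine ⟨O, hO, Subset.antisymm ?_ ?_⟩
    · rintro _ ⟨hk, ⟨k, -, rfl⟩⟩
      rw [hj2 k hk]; exact rfl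
    · rintro _ rfl
      exact ⟨hj1, ⟨j, hj, rfl⟩⟩
  refine ⟨x, hH, hinj, by rw [← image_univ]; exact hdisc _, fun a => ?_, fun i => (hx i).2.2.2⟩
  have hAc : closure (x '' Iio a) ∩ E ⊆ ⋃₀ S (x '' Iio a) :=
    hSc _ (hAH _) (hdisc _) (mk_image_le.trans_lt (mk_Iio_lt_of_ord a))
  have hW : IsOpen (⋃₀ S (x '' Iio a)) := isOpen_sUnion fun U hU => hopen U (hSU _ hU)
  have hd : Disjoint (⋃₀ S (x '' Iio a)) (closure (x '' Ici a)) := by
    refine Disjoint.closure_right ?_ hW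
    rw [Set.disjoint_left]
    rintro _ hy ⟨i, hi, rfl⟩
    exact h1 i a hi hy
  exact hd.mono_left hAc

end Pool.Agent.CoDiag
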