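import Pool.Agent.Lib.MP_aae0ca_gt.Defs
import Pool.Agent.Lib.MP_aae0ca_gt.Master

/-! # First facts on discretely Lindelöf co-diagonals (MP_aae0ca_gt) -/

open Cardinal Set Topology

universe u

namespace Pool.Agent.CoDiag

variable {X : Type u} [TopologicalSpace X] [T2Space X]

omit [T2Space X] in
theorem DiscretelyLindelof.isLindelof {Z : Type u} [TopologicalSpace Z]
    (h : DiscretelyLindelof Z) {D : Set Z} (hD : IsDiscrete D) : IsLindelof (closure D) := by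
  have := h D hD.to_subtype
  exact isLindelof_iff_lindelofSpace.2 this

theorem mk_closure_le (h : DiscretelyLindelof (CoDiagonal X)) {D : Set X} (hD : IsDiscrete D) :
    #(closure D) ≤ 𝔠 := by
  classical
  rw [isDiscrete_iff_forall_mem_exists_isOpen] at hD
  let E : Set (CoDiagonal X) := {p | p.1.1 ∈ D ∧ p.1.2 ∈ D}
  have hc1 : Continuous fun p : CoDiagonal X => p.1.1 := continuous_fst.comp continuous_subtype_val
  have hc2 : Continuous fun p : CoDiagonal X => p.1.2 := continuous_snd.comp continuous_subtype_val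
  have hE : IsDiscrete E := by
    rw [isDiscrete_iff_forall_mem_exists_isOpen]
    rintro ⟨⟨x, y⟩, hxy⟩ ⟨hx, hy⟩
    obtain ⟨U, hU, hUx⟩ := hD x hx
    obtain ⟨V, hV, hVy⟩ := hD y hy
    refine ⟨{p | p.1.1 ∈ U ∧ p.1.2 ∈ V}, (hU.preimage hc1).inter (hV.preimage hc2),
      Subset.antisymm ?_ ?_⟩
    · rintro ⟨⟨a, b⟩, hab⟩ ⟨⟨ha, hb⟩, ⟨ha', hb'⟩⟩
      have h1 : a ∈ ({x} : Set X) := hUx ▸ ⟨ha, ha'⟩
      have h2 : b ∈ ({y} : Set X) := hVy ▸ ⟨hb, hb'⟩
      simp only [mem_singleton_iff] at h1 h2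
      subst h1 h2
      rfl
    · rintro _ rfl
      have h1 : x ∈ U ∩ D := hUx ▸ rfl
      have h2 : y ∈ V ∩ D := hVy ▸ rfl
      exact ⟨⟨h1.1, h2.1⟩, ⟨hx, hy⟩⟩
  have hcl : ∀ x ∈ closure D, ∀ y ∈ closure D, ∀ hxy : x ≠ y,
      (⟨(x, y), hxy⟩ : CoDiagonal X) ∈ closure E := by
    intro x hx y hy hxy
    obtain ⟨U', V', hU', hV', hxU', hyV', hdis⟩ := t2_separation hxy
    rw [mem_closure_iff]
    intro O hO hmem
    obtain ⟨O', hO', rfl⟩ := isOpen_induced_iff.1 hO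
    obtain ⟨U, V, hU, hV, hxU, hyV, hUV⟩ := isOpen_prod_iff.1 hO' x y hmem
    obtain ⟨d, ⟨hdU, hdU'⟩, hdD⟩ := mem_closure_iff.1 hx (U ∩ U') (hU.inter hU') ⟨hxU, hxU'⟩
    obtain ⟨e, ⟨heV, heV'⟩, heD⟩ := mem_closure_iff.1 hy (V ∩ V') (hV.inter hV') ⟨hyV, hyV'⟩
    have hde : d ≠ e := fun hh => (Set.disjoint_left.1 hdis) hdU' (hh ▸ heV')
    exact ⟨⟨(d, e), hde⟩, hUV ⟨hdU, heV⟩, ⟨hdD, heD⟩⟩
  have hsep : ∀ p : CoDiagonal X, ∃ U V : Set X, IsOpen U ∧ IsOpen V ∧ p.1.1 ∈ U ∧ p.1.2 ∈ V ∧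
      Disjoint U V := fun p => t2_separation p.2
  choose U V hU hV hpU hpV hdis using hsep
  obtain ⟨r, hr, hcov⟩ := (h.isLindelof hE).elim_countable_subcover
    (fun p : CoDiagonal X => {q : CoDiagonal X | q.1.1 ∈ U p ∧ q.1.2 ∈ V p})
    (fun p => ((hU p).preimage hc1).inter ((hV p).preimage hc2))
    (fun p _ => mem_iUnion.2 ⟨p, hpU p, hpV p⟩)
  let φ : closure D → Set r := fun x => {p | (x : X) ∈ U p.1}
  have hφ : Function.Injective φ := by
    intro x y hxy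
    by_contra hne
    have hne' : (x : X) ≠ y := fun hh => hne (Subtype.ext hh)
    obtain ⟨p, hp, hp1, hp2⟩ := mem_iUnion₂.1 (hcov (hcl x x.2 y y.2 hne'))
    have h1 : (⟨p, hp⟩ : r) ∈ φ x := hp1
    rw [hxy] at h1
    exact (Set.disjoint_left.1 (hdis p)) h1 hp2
  have h1 := Cardinal.mk_le_of_injective hφ
  rw [Cardinal.mk_set] at h1
  refine h1.trans ?_
  rw [← Cardinal.two_power_aleph0]
  exact Cardinal.power_le_power_left two_ne_zero (Cardinal.mk_le_aleph0_iff.2 hr.to_subtype)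

theorem isLindelof_closure_diff (h : DiscretelyLindelof (CoDiagonal X)) {D : Set X}
    (hD : IsDiscrete D) (x₀ : X) : IsLindelof (closure D \ {x₀}) := by
  rw [isDiscrete_iff_forall_mem_exists_isOpen] at hD
  let E : Set (CoDiagonal X) := {p | p.1.1 = x₀ ∧ p.1.2 ∈ D}
  have hc1 : Continuous fun p : CoDiagonal X => p.1.1 := continuous_fst.comp continuous_subtype_val
  have hc2 : Continuous fun p : CoDiagonal X => p.1.2 := continuous_snd.comp continuous_subtype_val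
  have hE : IsDiscrete E := by
    rw [isDiscrete_iff_forall_mem_exists_isOpen]
    rintro ⟨⟨x, y⟩, hxy⟩ ⟨hx, hy⟩
    obtain ⟨V, hV, hVy⟩ := hD y hy
    refine ⟨{p | p.1.2 ∈ V}, hV.preimage hc2, Subset.antisymm ?_ ?_⟩
    · rintro ⟨⟨a, b⟩, hab⟩ ⟨hb, ⟨ha', hb'⟩⟩
      have h2 : b ∈ ({y} : Set X) := hVy ▸ ⟨hb, hb'⟩
      simp only [mem_singleton_iff] at h2 ha' hx
      subst ha' h2 hx
      rfl
    · rintro _ rfl
      have h2 : y ∈ V ∩ D := hVy ▸ rfl
      exact ⟨h2.1, ⟨hx, hy⟩⟩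
  have himg : (fun p : CoDiagonal X => p.1.2) '' closure E = closure D \ {x₀} := by
    apply Subset.antisymm
    · rintro _ ⟨p, hp, rfl⟩
      have h1 : p.1.1 = x₀ := by
        have hcl : IsClosed {q : CoDiagonal X | q.1.1 = x₀} := isClosed_singleton.preimage hc1
        exact closure_minimal (fun q hq => hq.1) hcl hp
      have h2 : p.1.2 ∈ closure D := by
        have hcl : IsClosed {q : CoDiagonal X | q.1.2 ∈ closure D} := isClosed_closure.preimage hc2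
        have hsub : E ⊆ {q : CoDiagonal X | q.1.2 ∈ closure D} := fun q hq => subset_closure hq.2
        exact closure_minimal hsub hcl hp
      exact ⟨h2, fun hh => p.2 (h1.trans (mem_singleton_iff.1 hh).symm)⟩
    · rintro y ⟨hy, hyx⟩
      have hxy : x₀ ≠ y := fun hh => hyx hh.symm
      refine ⟨⟨(x₀, y), hxy⟩, ?_, rfl⟩
      rw [mem_closure_iff]
      intro O hO hmem
      obtain ⟨O', hO', rfl⟩ := isOpen_induced_iff.1 hO
      obtain ⟨U, V, hU, hV, hxU, hyV, hUV⟩ := isOpen_prod_iff.1 hO' x₀ y hmem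
      obtain ⟨e, ⟨heV, heV'⟩, heD⟩ := mem_closure_iff.1 hy (V ∩ {x₀}ᶜ)
        (hV.inter isClosed_singleton.isOpen_compl) ⟨hyV, hyx⟩
      have hde : x₀ ≠ e := fun hh => heV' hh.symm
      exact ⟨⟨(x₀, e), hde⟩, hUV ⟨hxU, heV⟩, ⟨rfl, heD⟩⟩
  rw [← himg]
  exact (h.isLindelof hE).image hc2

theorem isLindelof_closure (h : DiscretelyLindelof (CoDiagonal X)) {D : Set X}
    (hD : IsDiscrete D) : IsLindelof (closure D) := by
  rcases D.eq_empty_or_nonempty with rfl | ⟨x₀, hx₀⟩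
  · simp
  · have h1 := (isLindelof_closure_diff h hD x₀).union (isLindelof_singleton (x := x₀))
    rwa [sdiff_union_of_subset (singleton_subset_iff.2 (subset_closure hx₀))] at h1

/-- Every point is the intersection of at most continuum many open sets. -/
theorem exists_pseudobase (h : DiscretelyLindelof (CoDiagonal X)) (x₀ : X) :
    ∃ 𝒢 : Set (Set X), #𝒢 ≤ 𝔠 ∧ (∀ U ∈ 𝒢, IsOpen U ∧ x₀ ∈ U) ∧ ∀ p, p ≠ x₀ → ∃ U ∈ 𝒢, p ∉ U := by
  classical
  have hsep : ∀ y : X, ∃ O G : Set X, y ≠ x₀ → (IsOpen O ∧ IsOpen G ∧ y ∈ O ∧ x₀ ∈ G ∧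
      Disjoint O G) := by
    intro y
    by_cases hy : y = x₀
    · exact ⟨∅, ∅, fun hh => absurd hy hh⟩
    · obtain ⟨O, G, h1⟩ := t2_separation hy
      exact ⟨O, G, fun _ => h1⟩
  choose O G hOG using hsep
  let 𝒰 : Set (Set X) := O '' {x₀}ᶜ
  have hreg : (Order.succ 𝔠 : Cardinal.{u}).IsRegular := isRegular_succ aleph0_le_continuum
  have key : ∃ 𝒱 ⊆ 𝒰, #𝒱 < Order.succ (𝔠 : Cardinal.{u}) ∧ ({x₀}ᶜ : Set X) ⊆ ⋃₀ 𝒱 := by
    by_contra hcon
    push Not at hcon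
    obtain ⟨x, -, hinj, hdisc, -, -⟩ := master hreg ({x₀}ᶜ : Set X) {x₀}ᶜ 𝒰 (by
        rintro _ ⟨y, hy, rfl⟩
        exact (hOG y hy).1) Subset.rfl (by
        intro D hD hdisc _
        have hL := isLindelof_closure_diff h hdisc x₀
        obtain ⟨r, hr, hcov⟩ := hL.elim_countable_subcover (fun y : ({x₀}ᶜ : Set X) => O y)
          (fun y => (hOG y y.2).1) (by
            rintro y ⟨-, hy⟩
            exact mem_iUnion.2 ⟨⟨y, hy⟩, (hOG y hy).2.2.1⟩)
        refine ⟨(fun y : ({x₀}ᶜ : Set X) => O y) '' r, ?_, ?_, ?_⟩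
        · rintro _ ⟨y, -, rfl⟩
          exact ⟨y, y.2, rfl⟩
        · rw [Order.lt_succ_iff]
          exact (Cardinal.mk_le_aleph0_iff.2 (hr.image _).to_subtype).trans aleph0_le_continuum
        · rw [sUnion_image]
          exact hcov) hcon (fun _ => ∅) (fun _ => empty_subset _)
        (fun _ => by simpa using hreg.pos)
    have h1 : #(range x) ≤ 𝔠 := (Cardinal.mk_le_mk_of_subset subset_closure).trans
      (mk_closure_le h hdisc)
    rw [Cardinal.mk_range_eq x hinj, Cardinal.mk_ord_toType] at h1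
    exact absurd h1 (not_le.2 (Order.lt_succ _))
  obtain ⟨𝒱, h𝒱, hcard, hcov⟩ := key
  rw [Order.lt_succ_iff] at hcard
  have h𝒱' : ∀ V : Set X, ∃ y : X, V ∈ 𝒱 → y ≠ x₀ ∧ O y = V := by
    intro V
    by_cases hV : V ∈ 𝒱
    · obtain ⟨y, hy, hyV⟩ := h𝒱 hV
      exact ⟨y, fun _ => ⟨hy, hyV⟩⟩
    · exact ⟨x₀, fun hh => absurd hh hV⟩
  choose y hyV using h𝒱'
  refine ⟨(fun V => G (y V)) '' 𝒱, mk_image_le.trans hcard, ?_, ?_⟩
  · rintro _ ⟨V, hV, rfl⟩
    exact ⟨(hOG _ (hyV V hV).1).2.1, (hOG _ (hyV V hV).1).2.2.2.1⟩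
  · intro p hp
    obtain ⟨V, hV, hpV⟩ := hcov hp
    refine ⟨_, ⟨V, hV, rfl⟩, fun hpG => ?_⟩
    have h1 := (hOG _ (hyV V hV).1).2.2.2.2
    rw [(hyV V hV).2] at h1
    exact Set.disjoint_left.1 h1 hpV hpG

end Pool.Agent.CoDiag
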