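import Pool.Agent.Lib.MP_aae0ca_gt.Boxes

/-! # Topological groups with a discretely Lindelöf co-diagonal: nets and boxes (MP_aae0ca_gt) -/

open Cardinal hiding univ
open Set Topology

universe u

namespace Pool.Agent.CoDiag

variable {G : Type u} [Group G] [TopologicalSpace G] [IsTopologicalGroup G]

theorem exists_sym {s : Set G} (hs : s ∈ 𝓝 (1 : G)) : ∃ V : Set G, IsOpen V ∧ (1 : G) ∈ V ∧
    (∀ v ∈ V, v⁻¹ ∈ V) ∧ ∀ v ∈ V, ∀ w ∈ V, v * w ∈ s := by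
  obtain ⟨V, hV, h1, hVV⟩ := exists_open_nhds_one_split hs
  refine ⟨V ∩ V⁻¹, hV.inter hV.inv, ⟨h1, by simpa using h1⟩, ?_, ?_⟩
  · rintro v ⟨hv, hv'⟩
    exact ⟨hv', by simpa using hv⟩
  · rintro v ⟨hv, -⟩ w ⟨hw, -⟩
    exact hVV v hv w hw

theorem ball_open {V : Set G} (hV : IsOpen V) (a : G) : IsOpen {y : G | a⁻¹ * y ∈ V} :=
  hV.preimage (continuous_const.mul continuous_id)

/-- Every neighbourhood of `1` contains a closed subgroup which is a `G_δ`-set. -/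
theorem exists_subgroup {s : Set G} (hs : s ∈ 𝓝 (1 : G)) : ∃ N : Subgroup G,
    IsClosed (N : Set G) ∧ (N : Set G) ⊆ s ∧ ∃ O : ℕ → Set G, (∀ n, IsOpen (O n)) ∧
      (N : Set G) = ⋂ n, O n := by
  classical
  have hch : ∀ s : Set G, ∃ V : Set G, s ∈ 𝓝 (1 : G) → (IsOpen V ∧ (1 : G) ∈ V ∧
      (∀ v ∈ V, v⁻¹ ∈ V) ∧ ∀ v ∈ V, ∀ w ∈ V, v * w ∈ s) := by
    intro s
    by_cases hs : s ∈ 𝓝 (1 : G)
    · obtain ⟨V, hV⟩ := exists_sym hs
      exact ⟨V, fun _ => hV⟩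
    · exact ⟨∅, fun hh => absurd hh hs⟩
  choose F hF using hch
  let V : ℕ → Set G := fun n => F^[n] (interior s)
  have hVs : ∀ n, V (n + 1) = F (V n) := fun n => Function.iterate_succ_apply' F n _
  have hVn : ∀ n, IsOpen (V n) ∧ (1 : G) ∈ V n := by
    intro n
    induction n with
    | zero => exact ⟨isOpen_interior, mem_interior_iff_mem_nhds.2 hs⟩
    | succ n ih =>
      rw [hVs]
      have h1 := hF _ (ih.1.mem_nhds ih.2)
      exact ⟨h1.1, h1.2.1⟩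
  have h1V : ∀ n, (1 : G) ∈ V n := fun n => (hVn n).2
  have hopen : ∀ n, IsOpen (V n) := fun n => (hVn n).1
  have hmul : ∀ n, ∀ v ∈ V (n + 1), ∀ w ∈ V (n + 1), v * w ∈ V n :=
    fun n => by rw [hVs]; exact (hF _ ((hopen n).mem_nhds (h1V n))).2.2.2
  have hinv : ∀ n, ∀ v ∈ V (n + 1), v⁻¹ ∈ V (n + 1) :=
    fun n => by rw [hVs]; exact (hF _ ((hopen n).mem_nhds (h1V n))).2.2.1
  have hsub : ∀ n, (V (n + 1) : Set G) ⊆ V n := fun n v hv => by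
    have := hmul n v hv 1 (h1V _)
    rwa [mul_one] at this
  have hcl : ∀ n, closure (V (n + 1) : Set G) ⊆ V n := by
    intro n x hx
    obtain ⟨w, hw1, hw2⟩ := mem_closure_iff.1 hx {y | x⁻¹ * y ∈ (V (n + 1) : Set G)}
      (ball_open (hopen _) x) (by simpa using h1V (n + 1))
    have h2 := hmul n w hw2 _ (hinv n _ hw1)
    have h3 : w * (x⁻¹ * w)⁻¹ = x := by group
    rwa [h3] at h2
  let N : Subgroup G :=
    { carrier := ⋂ n, (V n : Set G)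
      mul_mem' := by
        intro a b ha hb
        rw [mem_iInter] at ha hb ⊢
        exact fun n => hmul n a (ha _) b (hb _)
      one_mem' := mem_iInter.2 h1V
      inv_mem' := by
        intro a ha
        rw [mem_iInter] at ha ⊢
        exact fun n => hsub n (hinv n a (ha _)) }
  have hNc : (N : Set G) = ⋂ n, (V n : Set G) := rfl
  refine ⟨N, ?_, ?_, fun n => V n, hopen, hNc⟩
  · have h4 : (N : Set G) = ⋂ n, closure (V (n + 1) : Set G) := by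
      rw [hNc]
      apply Subset.antisymm
      · exact fun x hx => mem_iInter.2 fun n => subset_closure (mem_iInter.1 hx (n + 1))
      · exact fun x hx => mem_iInter.2 fun n => hcl n (mem_iInter.1 hx n)
    rw [h4]
    exact isClosed_iInter fun n => isClosed_closure
  · intro x hx
    have h5 : x ∈ V 0 := mem_iInter.1 (show x ∈ ⋂ n, (V n : Set G) from hx) 0
    exact interior_subset h5

variable [T2Space G]

/-- `G` is `ω`-narrow. -/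
theorem exists_countable_net (h : DiscretelyLindelof (CoDiagonal G)) {W : Set G}
    (hW : W ∈ 𝓝 (1 : G)) : ∃ A : Set G, A.Countable ∧ ∀ x, ∃ a ∈ A, a⁻¹ * x ∈ W := by
  classical
  obtain ⟨V, hV, h1V, hVinv, hVV⟩ := exists_sym hW
  have hVW : V ⊆ W := fun v hv => by simpa using hVV v hv 1 h1V
  obtain ⟨T, hT, h1T, hTinv, hTT⟩ := exists_sym (hV.mem_nhds h1V)
  obtain ⟨A, hA⟩ := zorn_subset {A : Set G | A.Pairwise fun a b => a⁻¹ * b ∉ V} (by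
    intro c hc hchain
    exact ⟨⋃₀ c, (pairwise_sUnion hchain.directedOn).2 hc, fun s hs => subset_sUnion_of_mem hs⟩)
  have hApair : A.Pairwise fun a b => a⁻¹ * b ∉ V := hA.prop
  have hAeq : ∀ a ∈ A, ∀ b ∈ A, a⁻¹ * b ∈ V → a = b := by
    intro a ha b hb hab
    by_contra hne
    exact hApair ha hb hne hab
  have hAdisc : IsDiscrete A := by
    rw [isDiscrete_iff_forall_mem_exists_isOpen]
    intro a ha
    refine ⟨{y | a⁻¹ * y ∈ V}, ball_open hV a, Subset.antisymm ?_ ?_⟩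
    · rintro b ⟨hb, hbA⟩
      exact (hAeq a ha b hbA hb).symm
    · rintro _ rfl
      exact ⟨by simpa using h1V, ha⟩
  refine ⟨A, ?_, fun x => ?_⟩
  · obtain ⟨r, hr, hcov⟩ := (isLindelof_closure h hAdisc).elim_countable_subcover
      (fun x : G => {y : G | x⁻¹ * y ∈ T}) (fun x => ball_open hT x)
      (fun x _ => mem_iUnion.2 ⟨x, by simpa using h1T⟩)
    have h2 : A ⊆ ⋃ x ∈ r, A ∩ {y : G | x⁻¹ * y ∈ T} := by
      intro a ha
      obtain ⟨x, hx, hxa⟩ := mem_iUnion₂.1 (hcov (subset_closure ha))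
      exact mem_iUnion₂.2 ⟨x, hx, ha, hxa⟩
    refine (hr.biUnion fun x _ => Set.Subsingleton.countable ?_).mono h2
    rintro a ⟨ha, hax⟩ b ⟨hb, hbx⟩
    refine hAeq a ha b hb ?_
    have h3 := hTT _ (hTinv _ hax) _ hbx
    have h4 : (x⁻¹ * a)⁻¹ * (x⁻¹ * b) = a⁻¹ * b := by group
    rwa [h4] at h3
  · by_contra hcon
    push Not at hcon
    have hxV : ∀ a ∈ A, a⁻¹ * x ∉ V := fun a ha hh => hcon a ha (hVW hh)
    have h2 : (insert x A).Pairwise fun a b => a⁻¹ * b ∉ V := by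
      rintro a (rfl | ha) b (rfl | hb) hab
      · exact absurd rfl hab
      · intro hh
        refine hxV b hb ?_
        have h3 := hVinv _ hh
        have h4 : (a⁻¹ * b)⁻¹ = b⁻¹ * a := by group
        rwa [h4] at h3
      · exact hxV a ha
      · exact hApair ha hb hab
    have h3 : x ∈ A := hA.le_of_ge h2 (subset_insert x A) (mem_insert x A)
    exact hxV x h3 (by simpa using h1V)

/-- A pseudobase at `1` gives a cover of the co-diagonal by boxes. -/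
theorem exists_boxes (h : DiscretelyLindelof (CoDiagonal G)) (𝒢 : Set (Set G))
    (hnhds : ∀ V ∈ 𝒢, V ∈ 𝓝 (1 : G)) (hsep : ∀ g : G, g ≠ 1 → ∃ V ∈ 𝒢, g ∉ V) :
    ∃ 𝒰 : Set (Set (CoDiagonal G)), (∀ B ∈ 𝒰, IsBox B) ∧ ⋃₀ 𝒰 = Set.univ ∧ #𝒰 ≤ #𝒢 * ℵ₀ := by
  classical
  have hch : ∀ V : 𝒢, ∃ (W A : Set G), IsOpen W ∧ (∀ w ∈ W, w⁻¹ ∈ W) ∧
      (∀ w₁ ∈ W, ∀ w₂ ∈ W, ∀ w₃ ∈ W, ∀ w₄ ∈ W, w₁ * w₂ * (w₃ * w₄) ∈ (V : Set G)) ∧
      A.Countable ∧ ∀ x, ∃ a ∈ A, a⁻¹ * x ∈ W := by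
    intro V
    obtain ⟨V', hV', h1V', -, hVV'⟩ := exists_sym (hnhds V V.2)
    obtain ⟨W, hW, h1W, hWinv, hWW⟩ := exists_sym (hV'.mem_nhds h1V')
    obtain ⟨A, hA, hnet⟩ := exists_countable_net h (hW.mem_nhds h1W)
    exact ⟨W, A, hW, hWinv, fun w₁ h₁ w₂ h₂ w₃ h₃ w₄ h₄ =>
      hVV' _ (hWW _ h₁ _ h₂) _ (hWW _ h₃ _ h₄), hA, hnet⟩
  choose W A hW hWinv hW4 hA hnet using hch
  let f : (Σ V : 𝒢, A V × A V) → Set (CoDiagonal G) := fun p =>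
    {q | (p.2.1 : G)⁻¹ * q.1.1 ∈ W p.1 ∧ (p.2.2 : G)⁻¹ * q.1.2 ∈ W p.1}
  refine ⟨{B | IsBox B} ∩ range f, fun B hB => hB.1, ?_, ?_⟩
  · rw [eq_univ_iff_forall]
    rintro ⟨⟨x, y⟩, hxy⟩
    obtain ⟨V, hV, hgV⟩ := hsep (x⁻¹ * y) (fun hh => hxy (by
      have := inv_mul_eq_one.1 hh
      exact this))
    obtain ⟨a, ha, hax⟩ := hnet ⟨V, hV⟩ x
    obtain ⟨b, hb, hby⟩ := hnet ⟨V, hV⟩ y
    refine ⟨f ⟨⟨V, hV⟩, ⟨a, ha⟩, ⟨b, hb⟩⟩, ⟨⟨{z | a⁻¹ * z ∈ W ⟨V, hV⟩}, {z | b⁻¹ * z ∈ W ⟨V, hV⟩},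
      ball_open (hW _) a, ball_open (hW _) b, ?_, rfl⟩, ⟨_, rfl⟩⟩, ⟨hax, hby⟩⟩
    rw [Set.disjoint_left]
    intro z hz1 hz2
    refine hgV ?_
    have h1 := hW4 ⟨V, hV⟩ _ (hWinv _ _ hax) _ hz1 _ (hWinv _ _ hz2) _ hby
    have h2 : (a⁻¹ * x)⁻¹ * (a⁻¹ * z) * ((b⁻¹ * z)⁻¹ * (b⁻¹ * y)) = x⁻¹ * y := by group
    rwa [h2] at h1
  · refine (Cardinal.mk_le_mk_of_subset inter_subset_right).trans (mk_range_le.trans ?_)
    rw [Cardinal.mk_sigma]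
    refine (Cardinal.sum_le_sum _ (fun _ => ℵ₀) fun V => ?_).trans ?_
    · rw [Cardinal.mk_prod, lift_id]
      have h1 : #(A V) ≤ ℵ₀ := Cardinal.mk_le_aleph0_iff.2 (hA V).to_subtype
      exact (mul_le_mul' h1 h1).trans (Cardinal.aleph0_mul_aleph0).le
    · exact (Cardinal.sum_const' _ _).le

theorem card_le_of_countable (h : DiscretelyLindelof (CoDiagonal G)) (𝒢 : Set (Set G))
    (hnhds : ∀ V ∈ 𝒢, V ∈ 𝓝 (1 : G)) (hsep : ∀ g : G, g ≠ 1 → ∃ V ∈ 𝒢, g ∉ V)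
    (hc : #𝒢 ≤ ℵ₀) : #G ≤ 𝔠 := by
  obtain ⟨𝒰, h1, h2, h3⟩ := exists_boxes h 𝒢 hnhds hsep
  refine (card_le_of_boxes 𝒰 h1 h2).trans ?_
  rw [← Cardinal.two_power_aleph0]
  exact Cardinal.power_le_power_left two_ne_zero
    (h3.trans ((mul_le_mul' hc le_rfl).trans Cardinal.aleph0_mul_aleph0.le))

theorem card_group_le (h : DiscretelyLindelof (CoDiagonal G)) :
    #G ≤ 2 ^< 𝔠 ∧ (𝔠 < (ℵ_ Ordinal.omega0 : Cardinal.{u}) → #G ≤ 𝔠) := by
  obtain ⟨𝒢, h1, h2, h3⟩ := exists_pseudobase h (1 : G)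
  obtain ⟨𝒰, h4, h5, h6⟩ := exists_boxes h 𝒢 (fun V hV => (h2 V hV).1.mem_nhds (h2 V hV).2) h3
  refine of_boxes h 𝒰 h4 h5 (h6.trans ?_)
  exact (mul_le_mul' h1 Cardinal.aleph0_le_continuum).trans
    (Cardinal.mul_eq_self Cardinal.aleph0_le_continuum).le

end Pool.Agent.CoDiag
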