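import Pool.Agent.Lib.MP_aae0ca_gt.Tight

/-! # Subcovers in discretely Lindelöf spaces (MP_aae0ca_gt) -/

open Cardinal hiding univ
open Set Topology

universe u

namespace Pool.Agent.CoDiag

variable {Y : Type u} [TopologicalSpace Y]

/-- An increasing open cover indexed by a regular uncountable cardinal contains the space. -/
theorem exists_eq_univ (hL : DiscretelyLindelof Y) {κ : Cardinal.{u}} (hκ : κ.IsRegular)
    (hκ' : ℵ₀ < κ) (W : κ.ord.ToType → Set Y) (hW : ∀ i, IsOpen (W i)) (hmono : Monotone W)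
    (hcov : ⋃ i, W i = Set.univ) : ∃ i, W i = Set.univ := by
  classical
  by_contra hcon
  push Not at hcon
  obtain ⟨x, -, -, hdisc, -, hx⟩ := master hκ univ univ (range W) (by
      rintro _ ⟨i, rfl⟩
      exact hW i) Subset.rfl (by
      intro D _ hD _
      obtain ⟨r, hr, hcov'⟩ := (hL.isLindelof hD).elim_countable_subcover W hW
        (by rw [hcov]; exact subset_univ _)
      refine ⟨W '' r, image_subset_range _ _, ?_, ?_⟩
      · exact (Cardinal.mk_le_aleph0_iff.2 (hr.image _).to_subtype).trans_lt hκ'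
      · rw [sUnion_image, inter_univ]
        exact hcov') (by
      intro 𝒱 h𝒱 hcard hcov'
      have hch : ∀ V : 𝒱, ∃ i, W i = V := fun V => h𝒱 V.2
      choose i hi using hch
      obtain ⟨b, hb⟩ := exists_upper hκ (range i) (mk_range_le.trans_lt hcard)
      refine hcon b (univ_subset_iff.1 fun y _ => ?_)
      obtain ⟨V, hV, hyV⟩ := hcov' (mem_univ y)
      have h1 := hmono (hb _ ⟨⟨V, hV⟩, rfl⟩).le
      rw [hi] at h1
      exact h1 hyV) (fun i => {W i}) (fun i => singleton_subset_iff.2 ⟨i, rfl⟩)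
      (fun i => by
        rw [Cardinal.mk_singleton]; exact Cardinal.one_lt_aleph0.trans hκ')
  obtain ⟨r, hr, hcov'⟩ := (hL.isLindelof hdisc).elim_countable_subcover W hW
    (by rw [hcov]; exact subset_univ _)
  obtain ⟨b, hb⟩ := exists_upper hκ r ((Cardinal.mk_le_aleph0_iff.2 hr.to_subtype).trans_lt hκ')
  obtain ⟨i, hi, hbi⟩ := mem_iUnion₂.1 (hcov' (subset_closure (mem_range_self b)))
  have h1 := hx b
  rw [sUnion_singleton] at h1
  exact h1 (hmono (hb i hi).le hbi)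

/-- Discretely Lindelöf and tightness at most `ν`: every open cover has a subcover of size at most
`ν`. -/
theorem exists_subcover_of_tightness (hL : DiscretelyLindelof Y) {ν : Cardinal.{u}} (hν : ℵ₀ ≤ ν)
    (ht : TightnessLE Y ν) (𝒰 : Set (Set Y)) (hopen : ∀ U ∈ 𝒰, IsOpen U) (hcov : ⋃₀ 𝒰 = Set.univ) :
    ∃ 𝒱 ⊆ 𝒰, #𝒱 ≤ ν ∧ ⋃₀ 𝒱 = Set.univ := by
  classical
  by_contra hcon
  push Not at hcon
  have hκ : (Order.succ ν).IsRegular := isRegular_succ hν
  obtain ⟨x, -, -, -, hfr, -⟩ := master hκ univ univ 𝒰 hopen Subset.rfl (by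
      intro D _ hD _
      obtain ⟨r, hr, hcov'⟩ := (hL.isLindelof hD).elim_countable_subcover
        (fun U : 𝒰 => (U : Set Y)) (fun U => hopen U U.2)
        (by rw [← sUnion_eq_iUnion, hcov]; exact subset_univ _)
      refine ⟨Subtype.val '' r, ?_, ?_, ?_⟩
      · rintro _ ⟨U, -, rfl⟩
        exact U.2
      · exact (Cardinal.mk_le_aleph0_iff.2 (hr.image _).to_subtype).trans_lt
          (hν.trans_lt (Order.lt_succ ν))
      · rw [sUnion_image, inter_univ]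
        exact hcov') (by
      intro 𝒱 h𝒱 hcard hcov'
      exact hcon 𝒱 h𝒱 (Order.lt_succ_iff.1 hcard) (univ_subset_iff.1 hcov')) (fun _ => ∅)
      (fun _ => empty_subset _) (fun _ => by simp)
  refine not_free_of_tightness (fun D hD => hL.isLindelof hD) hν ht x fun b => ?_
  have := hfr b
  rwa [inter_univ] at this

/-- A cover whose cardinality has uncountable cofinality has a smaller subcover. -/
theorem exists_lt_subcover (hL : DiscretelyLindelof Y) (𝒰 : Set (Set Y))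
    (hopen : ∀ U ∈ 𝒰, IsOpen U) (hcov : ⋃₀ 𝒰 = Set.univ) (hm : ℵ₀ < (#𝒰).ord.cof) :
    ∃ 𝒱 ⊆ 𝒰, #𝒱 < #𝒰 ∧ ⋃₀ 𝒱 = Set.univ := by
  classical
  set m := #𝒰 with hmdef
  have hm0 : ℵ₀ ≤ m := hm.le.trans (Ordinal.cof_ord_le m)
  have hκ : (m.ord.cof).IsRegular := isRegular_cof (isSuccLimit_ord hm0)
  obtain ⟨f, hf⟩ := Ordinal.exists_isFundamentalSeq (o := m.ord) rfl
  let g : (m.ord.cof).ord.ToType → m.ord.ToType := fun i =>
    Ordinal.ToType.mk (f (Ordinal.ToType.mk.symm i))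
  have hgmono : StrictMono g := fun i j hij =>
    Ordinal.ToType.mk.strictMono (hf.strictMono (Ordinal.ToType.mk.symm.strictMono hij))
  have hgcof : ∀ b, ∃ i, b ≤ g i := by
    intro b
    obtain ⟨_, ⟨c, rfl⟩, hc⟩ := hf.isCofinal_range (Ordinal.ToType.mk.symm b)
    refine ⟨Ordinal.ToType.mk c, ?_⟩
    have h1 := Ordinal.ToType.mk.monotone hc
    rw [OrderIso.apply_symm_apply] at h1
    simpa [g] using h1
  have he : #(m.ord.ToType) = #𝒰 := by rw [Cardinal.mk_ord_toType]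
  obtain ⟨e⟩ := Cardinal.eq.1 he
  obtain ⟨i, hi⟩ := exists_eq_univ hL hκ hm (fun i => ⋃ j : Iic (g i), (e j : Set Y))
    (fun i => isOpen_iUnion fun j => hopen _ (e j).2) (by
      intro i j hij y hy
      obtain ⟨k, hk⟩ := mem_iUnion.1 hy
      exact mem_iUnion.2 ⟨⟨k, k.2.trans (hgmono.monotone hij)⟩, hk⟩) (by
      rw [eq_univ_iff_forall]
      intro y
      obtain ⟨U, hU, hy⟩ := hcov.ge (mem_univ y)
      obtain ⟨i, hi⟩ := hgcof (e.symm ⟨U, hU⟩)
      refine mem_iUnion.2 ⟨i, mem_iUnion.2 ⟨⟨e.symm ⟨U, hU⟩, hi⟩, ?_⟩⟩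
      rw [Equiv.apply_symm_apply]
      exact hy)
  refine ⟨range fun j : Iic (g i) => (e j : Set Y), ?_, ?_, ?_⟩
  · rintro _ ⟨j, rfl⟩
    exact (e j).2
  · exact mk_range_le.trans_lt (mk_Iic_lt_of_ord hm0 _)
  · rw [sUnion_range]
    exact hi

theorem isRegular_of_lt {m : Cardinal.{u}} (h1 : ℵ₀ < m) (h2 : m < ℵ_ Ordinal.omega0) :
    m.IsRegular := by
  obtain ⟨o, rfl⟩ := mem_range_aleph_iff.2 h1.le
  rw [aleph_lt_aleph, Ordinal.lt_omega0] at h2
  obtain ⟨n, rfl⟩ := h2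
  rcases n with _ | n
  · simp at h1
  · have := isRegular_aleph_add_one (n : Ordinal.{u})
    push_cast
    exact this

theorem exists_countable_subcover (hL : DiscretelyLindelof Y) (𝒰 : Set (Set Y))
    (hopen : ∀ U ∈ 𝒰, IsOpen U) (hcov : ⋃₀ 𝒰 = Set.univ) (hm : #𝒰 < ℵ_ Ordinal.omega0) :
    ∃ 𝒱 ⊆ 𝒰, #𝒱 ≤ ℵ₀ ∧ ⋃₀ 𝒱 = Set.univ := by
  generalize hc : #𝒰 = c
  induction c using WellFoundedLT.induction generalizing 𝒰 with
  | ind c ih =>
    subst hc
    by_cases h0 : #𝒰 ≤ ℵ₀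
    · exact ⟨𝒰, Subset.rfl, h0, hcov⟩
    · rw [not_le] at h0
      have hreg := isRegular_of_lt h0 hm
      obtain ⟨𝒱, h𝒱, hlt, hcov'⟩ := exists_lt_subcover hL 𝒰 hopen hcov (by rwa [hreg.cof_ord])
      obtain ⟨𝒲, h𝒲, h1, h2⟩ := ih _ hlt 𝒱 (fun U hU => hopen U (h𝒱 hU)) hcov' (hlt.trans hm) rfl
      exact ⟨𝒲, h𝒲.trans h𝒱, h1, h2⟩

end Pool.Agent.CoDiag
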