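import Pool.Agent.Lib.MP_aae0ca_gt.Facts

/-! # Free sequences and the size of the space (MP_aae0ca_gt) -/

open Cardinal Set Topology

universe u

namespace Pool.Agent.CoDiag

variable {X : Type u} [TopologicalSpace X] [T2Space X]

theorem card_le_of_no_free (h : DiscretelyLindelof (CoDiagonal X)) {κ μ : Cardinal.{u}}
    (hκ : κ.IsRegular) (hκ' : ℵ₀ < κ) (hcμ : 𝔠 ≤ μ) (hμ : ∀ ν < κ, μ ^ ν ≤ μ)
    (hfree : ∀ x : κ.ord.ToType → X, ¬ IsFreeSequence x) : #X ≤ μ := by
  classical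
  rcases isEmpty_or_nonempty X with hX | ⟨⟨x₀⟩⟩
  · simp
  have hμ0 : ℵ₀ ≤ μ := aleph0_le_continuum.trans hcμ
  let T : Type u := (𝔠 : Cardinal.{u}).out
  have hT : #T = 𝔠 := Cardinal.mk_out _
  have henum : ∀ x : X, ∃ g : T → Set X, (∀ t, IsOpen (g t) ∧ x ∈ g t) ∧
      ∀ p, p ≠ x → ∃ t, p ∉ g t := by
    intro x
    obtain ⟨𝒢, hcard, hG, hsep⟩ := exists_pseudobase h x
    rcases 𝒢.eq_empty_or_nonempty with rfl | hne
    · refine ⟨fun _ => univ, fun _ => ⟨isOpen_univ, trivial⟩, fun p hp => ?_⟩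
      obtain ⟨U, hU, -⟩ := hsep p hp
      exact absurd hU (notMem_empty U)
    · rw [← hT] at hcard
      obtain ⟨e⟩ := (Cardinal.le_def _ _).1 hcard
      have : Nonempty 𝒢 := hne.to_subtype
      refine ⟨fun t => (Function.invFun e t : 𝒢), fun t => hG _ (Function.invFun e t).2,
        fun p hp => ?_⟩
      obtain ⟨U, hU, hpU⟩ := hsep p hp
      refine ⟨e ⟨U, hU⟩, ?_⟩
      change p ∉ ((Function.invFun e (e ⟨U, hU⟩) : 𝒢) : Set X)
      rwa [Function.leftInverse_invFun e.injective]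
  choose G hG hGsep using henum
  let w : (A : Set X) → (A → T) → X := fun A g =>
    if hh : ((⋃ a : A, G a (g a))ᶜ : Set X).Nonempty then hh.some else x₀
  have hw : ∀ (A : Set X) (g : A → T), ((⋃ a : A, G a (g a))ᶜ : Set X).Nonempty →
      w A g ∈ ((⋃ a : A, G a (g a))ᶜ : Set X) := by
    intro A g hh
    simp only [w, dif_pos hh]
    exact hh.some_mem
  let Φ : Set X → Set X := fun A => {y | IsDiscrete A ∧ y ∈ closure A} ∪ range (w A)
  obtain ⟨H, hHcard, hHcl⟩ := exists_closed κ μ hκ.aleph0_le hμ0 hμ Φ (by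
    intro A hA
    refine (Cardinal.mk_union_le _ _).trans ?_
    have h1 : #({y | IsDiscrete A ∧ y ∈ closure A} : Set X) ≤ μ := by
      by_cases hd : IsDiscrete A
      · exact ((Cardinal.mk_le_mk_of_subset fun y hy => hy.2).trans (mk_closure_le h hd)).trans hcμ
      · have : ({y | IsDiscrete A ∧ y ∈ closure A} : Set X) = ∅ := by
          ext y; simp [hd]
        rw [this]; simp
    have h2 : #(range (w A)) ≤ μ := by
      refine mk_range_le.trans ?_
      rw [Cardinal.mk_arrow, lift_id, lift_id, hT]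
      exact (Cardinal.power_le_power_right hcμ).trans (hμ _ hA)
    exact (add_le_add h1 h2).trans (Cardinal.add_eq_self hμ0).le)
  by_cases hall : ∀ p, p ∈ H
  · rw [← Cardinal.mk_univ]
    exact (Cardinal.mk_le_mk_of_subset fun p _ => hall p).trans hHcard
  exfalso
  push Not at hall
  obtain ⟨p, hp⟩ := hall
  have ht : ∀ x : X, ∃ t : T, x ∈ H → p ∉ G x t := by
    intro x
    by_cases hx : x ∈ H
    · obtain ⟨t, ht⟩ := hGsep x p (fun hh => hp (hh ▸ hx))
      exact ⟨t, fun _ => ht⟩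
    · have : Nonempty T := by
        rw [← Cardinal.mk_ne_zero_iff, hT]
        exact (Cardinal.aleph0_pos.trans_le aleph0_le_continuum).ne'
      exact ⟨Classical.arbitrary T, fun hh => absurd hh hx⟩
  choose t ht using ht
  obtain ⟨x, -, -, -, hfr, -⟩ := master hκ univ H ((fun x => G x (t x)) '' H) (by
      rintro _ ⟨x, -, rfl⟩
      exact (hG x (t x)).1) (subset_univ _) (by
      intro D hDH hD hDκ
      have hcl : closure D ⊆ H := fun y hy => hHcl D hDH hDκ (Or.inl ⟨hD, hy⟩)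
      obtain ⟨r, hr, hcov⟩ := (isLindelof_closure h hD).elim_countable_subcover
        (fun y : closure D => G y (t y)) (fun y => (hG y (t y)).1)
        (fun y hy => mem_iUnion.2 ⟨⟨y, hy⟩, (hG y (t y)).2⟩)
      refine ⟨(fun y : closure D => G y (t y)) '' r, ?_, ?_, ?_⟩
      · rintro _ ⟨y, -, rfl⟩
        exact ⟨y, hcl y.2, rfl⟩
      · exact (Cardinal.mk_le_aleph0_iff.2 (hr.image _).to_subtype).trans_lt hκ'
      · rw [sUnion_image, inter_univ]
        exact hcov) (by
      intro 𝒱 h𝒱 hcard hcov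
      have hch : ∀ V : 𝒱, ∃ a : X, a ∈ H ∧ G a (t a) = V := by
        intro V
        obtain ⟨a, ha, haV⟩ := h𝒱 V.2
        exact ⟨a, ha, haV⟩
      choose a haH haV using hch
      have hAκ : #(range a) < κ := mk_range_le.trans_lt hcard
      have hAH : range a ⊆ H := by
        rintro _ ⟨V, rfl⟩
        exact haH V
      have hne : ((⋃ b : range a, G b (t b))ᶜ : Set X).Nonempty := by
        refine ⟨p, fun hh => ?_⟩
        obtain ⟨b, hb⟩ := mem_iUnion.1 hh
        exact ht b (hAH b.2) hb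
      have hy := hw (range a) (fun b => t b) hne
      have hyH : w (range a) (fun b => t b) ∈ H :=
        hHcl (range a) hAH hAκ (Or.inr ⟨fun b => t b, rfl⟩)
      obtain ⟨V, hV, hyV⟩ := hcov hyH
      refine hy (mem_iUnion.2 ⟨⟨a ⟨V, hV⟩, ⟨_, rfl⟩⟩, ?_⟩)
      change _ ∈ G (a ⟨V, hV⟩) (t (a ⟨V, hV⟩))
      rw [haV ⟨V, hV⟩]
      exact hyV) (fun _ => ∅) (fun _ => empty_subset _) (fun _ => by simpa using hκ.pos)
  refine hfree x fun b => ?_
  have := hfr b
  rwa [inter_univ] at this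

end Pool.Agent.CoDiag
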