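import Pool.Agent.Lib.MP_aae0ca_gt.Blocks

/-! # Unions of at most `ℵ_ω` discrete sets in topological groups (MP_aae0ca_gt) -/

open Cardinal hiding univ
open Set Topology

universe u

namespace Pool.Agent.CoDiag

variable {G : Type u} [Group G] [TopologicalSpace G] [IsTopologicalGroup G] [T2Space G]

/-- A family of at most continuum many closed subgroups with trivial intersection, each the
intersection of countably many open sets. -/
theorem exists_subgroups (h : DiscretelyLindelof (CoDiagonal G)) :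
    ∃ (𝒢 : Set (Set G)) (M : Set G → Subgroup G) (O : Set G → ℕ → Set G), #𝒢 ≤ 𝔠 ∧
      (∀ V ∈ 𝒢, IsClosed (M V : Set G) ∧ (∀ n, IsOpen (O V n)) ∧ (M V : Set G) = ⋂ n, O V n) ∧
      ∀ g, g ≠ 1 → ∃ V ∈ 𝒢, g ∉ M V := by
  classical
  obtain ⟨𝒢, h1, h2, h3⟩ := exists_pseudobase h (1 : G)
  have hch : ∀ V : Set G, ∃ (N : Subgroup G) (O : ℕ → Set G), V ∈ 𝒢 →
      (IsClosed (N : Set G) ∧ (N : Set G) ⊆ V ∧ (∀ n, IsOpen (O n)) ∧
        (N : Set G) = ⋂ n, O n) := by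
    intro V
    by_cases hV : V ∈ 𝒢
    · obtain ⟨N, h4, h5, O, h6, h7⟩ := exists_subgroup ((h2 V hV).1.mem_nhds (h2 V hV).2)
      exact ⟨N, O, fun _ => ⟨h4, h5, h6, h7⟩⟩
    · exact ⟨⊥, fun _ => ∅, fun hh => absurd hh hV⟩
  choose M O hMO using hch
  refine ⟨𝒢, M, O, h1, fun V hV => ⟨(hMO V hV).1, (hMO V hV).2.2⟩, fun g hg => ?_⟩
  obtain ⟨V, hV, hgV⟩ := h3 g hg
  exact ⟨V, hV, fun hh => hgV ((hMO V hV).2.1 hh)⟩

/-- If `Y` minus any of its points is Lindelöf then `Y` has at most continuum many points. -/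
theorem card_le_of_lindelof_diff (h : DiscretelyLindelof (CoDiagonal G)) (Y : Set G)
    (hY : ∀ x ∈ Y, IsLindelof (Y \ {x})) : #Y ≤ 𝔠 := by
  classical
  obtain ⟨𝒢, M, O, hc, hM, hsep⟩ := exists_subgroups h
  have hnet : ∀ (V : Set G) (n : ℕ), ∃ (W : Set G) (e : ℕ → G), V ∈ 𝒢 →
      ((∀ w ∈ W, w⁻¹ ∈ W) ∧ (∀ v ∈ W, ∀ w ∈ W, v * w ∈ O V n) ∧ ∀ x, ∃ k, (e k)⁻¹ * x ∈ W) := by
    intro V n
    by_cases hV : V ∈ 𝒢
    · have h1 : (1 : G) ∈ O V n := by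
        have h2 : (1 : G) ∈ (M V : Set G) := (M V).one_mem
        rw [(hM V hV).2.2] at h2
        exact mem_iInter.1 h2 n
      obtain ⟨W, hW, h1W, hWinv, hWW⟩ := exists_sym (((hM V hV).2.1 n).mem_nhds h1)
      obtain ⟨A, hA, hAnet⟩ := exists_countable_net h (hW.mem_nhds h1W)
      have hAne : A.Nonempty := by
        obtain ⟨a, ha, -⟩ := hAnet 1
        exact ⟨a, ha⟩
      obtain ⟨e, rfl⟩ := hA.exists_eq_range hAne
      refine ⟨W, e, fun _ => ⟨hWinv, hWW, fun x => ?_⟩⟩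
      obtain ⟨_, ⟨k, rfl⟩, hk⟩ := hAnet x
      exact ⟨k, hk⟩
    · exact ⟨∅, fun _ => 1, fun hh => absurd hh hV⟩
  choose W e hWe using hnet
  have hcode : ∀ (V : Set G) (n : ℕ) (x : G), ∃ k : ℕ, V ∈ 𝒢 → (e V n k)⁻¹ * x ∈ W V n := by
    intro V n x
    by_cases hV : V ∈ 𝒢
    · obtain ⟨k, hk⟩ := (hWe V n hV).2.2 x
      exact ⟨k, fun _ => hk⟩
    · exact ⟨0, fun hh => absurd hh hV⟩
  choose k hk using hcode
  have hC : ∀ x : Y, ∃ f : ℕ → (insert Set.univ 𝒢 : Set (Set G)), ∀ y ∈ Y, y ≠ x →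
      ∃ j, (f j : Set G) ∈ 𝒢 ∧ (x : G)⁻¹ * y ∉ M (f j) := by
    intro x
    obtain ⟨r, hr, hcov⟩ := (hY x x.2).elim_countable_subcover
      (fun V : 𝒢 => {y : G | (x : G)⁻¹ * y ∉ M V})
      (fun V => (hM V V.2).1.isOpen_compl.preimage (continuous_const.mul continuous_id)) (by
        rintro y ⟨-, hy⟩
        obtain ⟨V, hV, hyV⟩ := hsep ((x : G)⁻¹ * y)
          (fun hh => hy (mem_singleton_iff.2 (inv_mul_eq_one.1 hh).symm))
        exact mem_iUnion.2 ⟨⟨V, hV⟩, hyV⟩)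
    let C : Set (insert Set.univ 𝒢 : Set (Set G)) :=
      insert ⟨Set.univ, mem_insert _ _⟩ ((fun V : 𝒢 => ⟨V, mem_insert_of_mem _ V.2⟩) '' r)
    have hCc : C.Countable := (hr.image _).insert _
    obtain ⟨f, hf⟩ := hCc.exists_eq_range ⟨_, mem_insert _ _⟩
    refine ⟨f, fun y hy hyx => ?_⟩
    obtain ⟨V, hV, hyV⟩ := mem_iUnion₂.1 (hcov ⟨hy, fun hh => hyx (mem_singleton_iff.1 hh)⟩)
    have h1 : (⟨V, mem_insert_of_mem _ V.2⟩ : (insert Set.univ 𝒢 : Set (Set G))) ∈ C :=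
      mem_insert_of_mem _ ⟨V, hV, rfl⟩
    rw [hf] at h1
    obtain ⟨j, hj⟩ := h1
    refine ⟨j, ?_, ?_⟩
    · rw [hj]; exact V.2
    · rw [hj]; exact hyV
  choose f hf using hC
  let Φ : Y → (ℕ → (insert Set.univ 𝒢 : Set (Set G))) × (ℕ → ℕ → ℕ) := fun x =>
    (f x, fun j n => k (f x j) n x)
  have hΦ : Function.Injective Φ := by
    intro x y hxy
    by_contra hne
    have hne' : (y : G) ≠ x := fun hh => hne (Subtype.ext hh.symm)
    obtain ⟨j, hj1, hj2⟩ := hf x y y.2 hne'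
    have h1 : f x = f y := congrArg Prod.fst hxy
    have h2 : ∀ n, k (f x j) n x = k (f y j) n y := fun n =>
      congrFun (congrFun (congrArg Prod.snd hxy) j) n
    apply hj2
    have h3 : (x : G)⁻¹ * y ∈ (M (f x j) : Set G) := by
      rw [(hM _ hj1).2.2]
      refine mem_iInter.2 fun n => ?_
      have h4 := hk (f x j) n x hj1
      have h5 := hk (f x j) n y hj1
      have h6 : k (f x j) n x = k (f x j) n y := by rw [h2 n, h1]
      rw [h6] at h4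
      have h7 := (hWe (f x j) n hj1).2.1 _ ((hWe (f x j) n hj1).1 _ h4) _ h5
      have h8 : ((e (f x j) n (k (f x j) n y))⁻¹ * (x : G))⁻¹ *
          ((e (f x j) n (k (f x j) n y))⁻¹ * (y : G)) = (x : G)⁻¹ * y := by group
      rwa [h8] at h7
    exact h3
  refine (Cardinal.mk_le_of_injective hΦ).trans ?_
  have h1 : #(insert Set.univ 𝒢 : Set (Set G)) ≤ 𝔠 :=
    (Cardinal.mk_insert_le).trans (Cardinal.add_le_of_le Cardinal.aleph0_le_continuum hc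
      (Cardinal.one_le_aleph0.trans Cardinal.aleph0_le_continuum))
  have h2 : #(ℕ → (insert Set.univ 𝒢 : Set (Set G))) ≤ 𝔠 := by
    rw [Cardinal.mk_arrow, lift_id', Cardinal.mk_nat, Cardinal.lift_aleph0]
    exact (Cardinal.power_le_power_right h1).trans Cardinal.continuum_power_aleph0.le
  have h3 : #(ℕ → ℕ → ℕ) ≤ 𝔠 := by
    simp
  rw [Cardinal.mk_prod, lift_id', ← Cardinal.lift_continuum.{u, 0}]
  refine (mul_le_mul' h2 (Cardinal.lift_le.2 h3)).trans ?_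
  rw [Cardinal.lift_continuum]
  exact (Cardinal.mul_eq_self Cardinal.aleph0_le_continuum).le

/-- The main dichotomy. -/
theorem dichotomy (h : DiscretelyLindelof (CoDiagonal G)) :
    (∃ 𝒪 : Set (Set G), #𝒪 ≤ ℵ₀ ∧ (∀ V ∈ 𝒪, IsOpen V ∧ (1 : G) ∈ V) ∧
      ∀ g, g ≠ 1 → ∃ V ∈ 𝒪, g ∉ V) ∨
    ((∀ (κ : Cardinal.{u}) (Q : κ.ord.ToType → Set G), κ ≤ ℵ_ Ordinal.omega0 →
      (∀ i, IsDiscrete (Q i)) → IsLindelof (closure (⋃ i, Q i) \ {1})) ∧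
      ∀ 𝒟 : Set (Set G), (∀ D ∈ 𝒟, IsDiscrete D) → Dense (⋃₀ 𝒟) → ℵ_ Ordinal.omega0 < #𝒟 ∧
        ∃ 𝒪 : Set (Set G), #𝒪 < #𝒟 ∧ (∀ V ∈ 𝒪, IsOpen V ∧ (1 : G) ∈ V) ∧
          ∀ g, g ≠ 1 → ∃ V ∈ 𝒪, g ∉ V) := by
  classical
  obtain ⟨𝒢, M, O, hc, hM, hsep⟩ := exists_subgroups h
  have hv : ∀ g : G, ∃ V : Set G, g ≠ 1 → (V ∈ 𝒢 ∧ g ∉ M V) := by
    intro g
    by_cases hg : g = 1
    · exact ⟨∅, fun hh => absurd hg hh⟩
    · obtain ⟨V, hV⟩ := hsep g hg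
      exact ⟨V, fun _ => hV⟩
  choose v hv using hv
  let N : G → Subgroup G := fun g => M (v g)
  have hN : ∀ g, g ≠ 1 → IsClosed (N g : Set G) ∧ g ∉ N g := fun g hg =>
    ⟨(hM _ (hv g hg).1).1, (hv g hg).2⟩
  -- the family of open sets belonging to a set of elements
  have hfam : ∀ A : Set G, (∀ x, x ≠ 1 → ∃ a ∈ A, a ≠ 1 ∧ x ∉ N a) → ∃ 𝒪 : Set (Set G),
      (∀ V ∈ 𝒪, IsOpen V ∧ (1 : G) ∈ V) ∧ (∀ g, g ≠ 1 → ∃ V ∈ 𝒪, g ∉ V) ∧ #𝒪 ≤ #A * ℵ₀ := by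
    intro A hA
    refine ⟨{V | (IsOpen V ∧ (1 : G) ∈ V)} ∩ range fun p : A × ℕ => O (v p.1) p.2,
      fun V hV => hV.1, ?_, ?_⟩
    · intro x hx
      obtain ⟨a, ha, ha1, hxa⟩ := hA x hx
      have hMa := hM _ (hv a ha1).1
      have h1 : x ∉ ⋂ n, O (v a) n := by
        rw [← hMa.2.2]
        exact hxa
      rw [mem_iInter] at h1
      push Not at h1
      obtain ⟨n, hn⟩ := h1
      refine ⟨O (v a) n, ⟨⟨hMa.2.1 n, ?_⟩, ⟨(⟨a, ha⟩, n), rfl⟩⟩, hn⟩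
      have h2 : (1 : G) ∈ ⋂ n, O (v a) n := by
        rw [← hMa.2.2]
        exact (M (v a)).one_mem
      exact mem_iInter.1 h2 n
    · refine (Cardinal.mk_le_mk_of_subset inter_subset_right).trans (mk_range_le.trans ?_)
      simp
  by_cases hcount : ∃ A : Set G, #A ≤ ℵ₀ ∧ ∀ x, x ≠ 1 → ∃ a ∈ A, a ≠ 1 ∧ x ∉ N a
  · obtain ⟨A, hA, hA'⟩ := hcount
    obtain ⟨𝒪, h1, h2, h3⟩ := hfam A hA'
    exact Or.inl ⟨𝒪, h3.trans ((mul_le_mul' hA le_rfl).trans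
      Cardinal.aleph0_mul_aleph0.le), h1, h2⟩
  · right
    push Not at hcount
    have hω : ∀ A : Set G, #A < ℵ_ Ordinal.omega0 → ∃ x, x ≠ 1 ∧ ∀ a ∈ A, a ≠ 1 → x ∈ N a := by
      intro A hA
      by_contra hcon
      push Not at hcon
      let W : G → Set (CoDiagonal G) := fun a => {p | p.1.1⁻¹ * p.1.2 ∉ N a}
      have hWo : ∀ a, a ≠ 1 → IsOpen (W a) := fun a ha =>
        (hN a ha).1.isOpen_compl.preimage
          (((continuous_fst.comp continuous_subtype_val).inv).mul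
            (continuous_snd.comp continuous_subtype_val))
      obtain ⟨𝒱, h𝒱, hc, hcov⟩ := exists_countable_subcover h (W '' (A \ {1})) (by
          rintro _ ⟨a, ha, rfl⟩
          exact hWo a ha.2) (by
          rw [eq_univ_iff_forall]
          rintro ⟨⟨x, y⟩, hxy⟩
          obtain ⟨a, ha, ha1, hxa⟩ := hcon (x⁻¹ * y) (fun hh => hxy (inv_mul_eq_one.1 hh))
          exact ⟨W a, ⟨a, ⟨ha, ha1⟩, rfl⟩, hxa⟩)
        ((mk_image_le.trans (Cardinal.mk_le_mk_of_subset sdiff_subset)).trans_lt hA)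
      have hch : ∀ V : 𝒱, ∃ a : G, (a ∈ A ∧ a ≠ 1) ∧ W a = V := fun V => h𝒱 V.2
      choose a ha haV using hch
      obtain ⟨x, hx1, hx⟩ := hcount (range a) (mk_range_le.trans hc)
      obtain ⟨V, hV, hxV⟩ := hcov.ge (mem_univ (⟨(1, x), hx1.symm⟩ : CoDiagonal G))
      have hxV' : (⟨(1, x), hx1.symm⟩ : CoDiagonal G) ∈ ((⟨V, hV⟩ : 𝒱) : Set (CoDiagonal G)) := hxV
      rw [← haV ⟨V, hV⟩] at hxV'
      have h5 : (1 : G)⁻¹ * x ∉ N (a ⟨V, hV⟩) := hxV'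
      rw [inv_one, one_mul] at h5
      exact h5 (hx _ ⟨_, rfl⟩ (ha _).2)
    have h1ω : (ℵ_ 1 : Cardinal.{u}) < ℵ_ Ordinal.omega0 :=
      Cardinal.aleph_lt_aleph.2 Ordinal.one_lt_omega0
    -- `G \ {1}` is not Lindelöf
    have hnot : ¬ IsLindelof (({1}ᶜ : Set G)) := by
      intro hL
      obtain ⟨r, hr, hcov⟩ := hL.elim_countable_subcover
        (fun g : ({1}ᶜ : Set G) => ((N g : Set G))ᶜ) (fun g => (hN g g.2).1.isOpen_compl)
        (fun y hy => mem_iUnion.2 ⟨⟨y, hy⟩, (hN y hy).2⟩)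
      obtain ⟨x, hx1, hx⟩ := hcount (Subtype.val '' r)
        (Cardinal.mk_le_aleph0_iff.2 (hr.image _).to_subtype)
      obtain ⟨g, hg, hxg⟩ := mem_iUnion₂.1 (hcov hx1)
      exact hxg (hx g ⟨g, hg, rfl⟩ g.2)
    have hdense : ∀ (l : Cardinal.{u}), ℵ_ 1 < l → ∀ 𝒟 : Set (Set G), (∀ D ∈ 𝒟, IsDiscrete D) →
        Dense (⋃₀ 𝒟) → #𝒟 ≤ l →
        ¬ ∀ A : Set G, #A < l → ∃ x, x ≠ 1 ∧ ∀ a ∈ A, a ≠ 1 → x ∈ N a := by
      intro l hl1 𝒟 h𝒟 hd hcard hl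
      obtain ⟨q⟩ := Cardinal.eq.1 (Cardinal.mk_ord_toType (#𝒟))
      have h1 := isLindelof_closure_iUnion h N hN hl1 hl hcard (fun i => (q i : Set G))
        (fun i => h𝒟 _ (q i).2)
      have h2 : (⋃ i, (q i : Set G)) = ⋃₀ 𝒟 := by
        rw [sUnion_eq_iUnion]
        exact q.surjective.iUnion_comp (fun D : 𝒟 => (D : Set G))
      rw [h2, hd.closure_eq, ← compl_eq_univ_sdiff] at h1
      exact hnot h1
    refine ⟨fun κ Q hκ hQ => isLindelof_closure_iUnion h N hN h1ω hω hκ Q hQ,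
      fun 𝒟 h𝒟 hd => ?_⟩
    have hDω : ℵ_ Ordinal.omega0 < #𝒟 := by
      rw [← not_le]
      intro hh
      exact hdense _ h1ω 𝒟 h𝒟 hd hh hω
    have hA := hdense _ (h1ω.trans hDω) 𝒟 h𝒟 hd le_rfl
    push Not at hA
    obtain ⟨A, hA, hA'⟩ := hA
    obtain ⟨𝒪, h1, h2, h3⟩ := hfam A hA'
    refine ⟨hDω, 𝒪, h3.trans_lt ?_, h1, h2⟩
    have hQ0 : ℵ₀ < #𝒟 := (Cardinal.aleph0_le_aleph _).trans_lt hDω
    exact Cardinal.mul_lt_of_lt hQ0.le hA hQ0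

/-- Closures of unions of at most `ℵ_ω` discrete sets have at most continuum many elements. -/
theorem mk_closure_sUnion_le (h : DiscretelyLindelof (CoDiagonal G)) (𝒟 : Set (Set G))
    (h𝒟 : ∀ D ∈ 𝒟, IsDiscrete D) (hc : #𝒟 ≤ ℵ_ Ordinal.omega0) : #(closure (⋃₀ 𝒟)) ≤ 𝔠 := by
  classical
  rcases dichotomy h with ⟨𝒪, h1, h2, h3⟩ | ⟨h1, -⟩
  · exact (Cardinal.mk_set_le _).trans
      (card_le_of_countable h 𝒪 (fun V hV => (h2 V hV).1.mem_nhds (h2 V hV).2) h3 h1)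
  · refine card_le_of_lindelof_diff h _ fun x _ => ?_
    obtain ⟨q⟩ := Cardinal.eq.1 (Cardinal.mk_ord_toType (#𝒟))
    have hq : (⋃ i, (q i : Set G)) = ⋃₀ 𝒟 := by
      rw [sUnion_eq_iUnion]
      exact q.surjective.iUnion_comp (fun D : 𝒟 => (D : Set G))
    have h2 := h1 (#𝒟) (fun i => (Homeomorph.mulLeft x⁻¹) '' (q i : Set G)) hc (by
      intro i
      have h3 := h𝒟 _ (q i).2
      rw [isDiscrete_iff_forall_mem_exists_isOpen] at h3 ⊢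
      rintro _ ⟨y, hy, rfl⟩
      obtain ⟨U, hU, hUy⟩ := h3 y hy
      refine ⟨(Homeomorph.mulLeft x⁻¹) '' U, (Homeomorph.mulLeft x⁻¹).isOpenMap U hU, ?_⟩
      rw [← image_inter (Homeomorph.mulLeft x⁻¹).injective, hUy, image_singleton])
    rw [← image_iUnion, hq, ← Homeomorph.image_closure] at h2
    have h4 := h2.image (Homeomorph.mulLeft x).continuous
    have h5 : (Homeomorph.mulLeft x) '' ((Homeomorph.mulLeft x⁻¹) '' closure (⋃₀ 𝒟) \ {1}) =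
        closure (⋃₀ 𝒟) \ {x} := by
      rw [image_sdiff (Homeomorph.mulLeft x).injective, image_image, image_singleton]
      simp
    rwa [h5] at h4

end Pool.Agent.CoDiag
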