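import Pool.Agent.Lib.MP_aae0ca_gt.Boxes

/-! # Splitting points and box covers in Hausdorff spaces (MP_aae0ca_gt) -/

open Cardinal hiding univ
open Set Topology Filter

universe u

namespace Pool.Agent.CoDiag

variable {X : Type u} [TopologicalSpace X] [T2Space X]

/-- If `p` is in the closure of each of the disjoint sets `D i`, whose union is discrete, then the
closure of a union of discrete sets `Q i` (same index set) minus `p` is Lindelöf. -/
theorem isLindelof_of_split (h : DiscretelyLindelof (CoDiagonal X)) {ι : Type*} (D Q : ι → Set X)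
    (hdisj : ∀ i j, i ≠ j → Disjoint (D i) (D j)) (hdisc : IsDiscrete (⋃ i, D i)) (p : X)
    (hp : ∀ i, p ∈ closure (D i)) (hQ : ∀ i, IsDiscrete (Q i)) :
    IsLindelof (closure (⋃ i, Q i) \ {p}) := by
  classical
  have hc1 : Continuous fun q : CoDiagonal X => q.1.1 := continuous_fst.comp continuous_subtype_val
  have hc2 : Continuous fun q : CoDiagonal X => q.1.2 := continuous_snd.comp continuous_subtype_val
  let E : Set (CoDiagonal X) := {q | ∃ i, q.1.1 ∈ D i ∧ q.1.2 ∈ Q i}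
  have hE : IsDiscrete E := by
    rw [isDiscrete_iff_forall_mem_exists_isOpen] at hdisc ⊢
    rintro q ⟨i, hqi, hqq⟩
    obtain ⟨O, hO, hOq⟩ := hdisc q.1.1 (mem_iUnion.2 ⟨i, hqi⟩)
    obtain ⟨O', hO', hO'q⟩ := isDiscrete_iff_forall_mem_exists_isOpen.1 (hQ i) q.1.2 hqq
    have h1 : q.1.1 ∈ O ∩ ⋃ i, D i := by rw [hOq]; rfl
    have h1' : q.1.2 ∈ O' ∩ Q i := by rw [hO'q]; rfl
    refine ⟨{r | r.1.1 ∈ O ∧ r.1.2 ∈ O'}, (hO.preimage hc1).inter (hO'.preimage hc2),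
      Subset.antisymm ?_ ?_⟩
    · rintro r ⟨⟨hrO, hrO'⟩, j, hrj, hrq⟩
      have h2 : r.1.1 ∈ O ∩ ⋃ i, D i := ⟨hrO, mem_iUnion.2 ⟨j, hrj⟩⟩
      rw [hOq, mem_singleton_iff] at h2
      have hij : i = j := by
        by_contra hne
        exact Set.disjoint_left.1 (hdisj i j hne) hqi (h2 ▸ hrj)
      subst hij
      have h3 : r.1.2 ∈ O' ∩ Q i := ⟨hrO', hrq⟩
      rw [hO'q, mem_singleton_iff] at h3
      exact Subtype.ext (Prod.ext h2 h3)
    · rintro _ rfl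
      exact ⟨⟨h1.1, h1'.1⟩, i, hqi, hqq⟩
  have hL : IsLindelof (closure E ∩ {q | q.1.1 = p}) :=
    (h.isLindelof hE).inter_right (isClosed_singleton.preimage hc1)
  have himg : (fun q : CoDiagonal X => q.1.2) '' (closure E ∩ {q | q.1.1 = p}) =
      closure (⋃ i, Q i) \ {p} := by
    apply Subset.antisymm
    · rintro _ ⟨q, ⟨hq, hq1⟩, rfl⟩
      have hcl : IsClosed {q : CoDiagonal X | q.1.2 ∈ closure (⋃ i, Q i)} :=
        isClosed_closure.preimage hc2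
      have hsub : E ⊆ {q : CoDiagonal X | q.1.2 ∈ closure (⋃ i, Q i)} := by
        rintro q ⟨i, -, hqi⟩
        exact subset_closure (mem_iUnion.2 ⟨i, hqi⟩)
      refine ⟨closure_minimal hsub hcl hq, fun hh => q.2 ?_⟩
      exact (show q.1.1 = p from hq1).trans (mem_singleton_iff.1 hh).symm
    · rintro y ⟨hy, hy1⟩
      have hy' : p ≠ y := fun hh => hy1 hh.symm
      refine ⟨⟨(p, y), hy'⟩, ⟨?_, rfl⟩, rfl⟩
      rw [mem_closure_iff]
      intro O hO hmem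
      obtain ⟨O', hO', rfl⟩ := isOpen_induced_iff.1 hO
      obtain ⟨U, V, hU, hV, hpU, hyV, hUV⟩ := isOpen_prod_iff.1 hO' p y hmem
      obtain ⟨w, ⟨hwV, hwp⟩, hwQ⟩ := mem_closure_iff.1 hy (V ∩ {p}ᶜ)
        (hV.inter isOpen_compl_singleton) ⟨hyV, hy1⟩
      obtain ⟨i, hwi⟩ := mem_iUnion.1 hwQ
      obtain ⟨d, ⟨hdU, hdw⟩, hdD⟩ := mem_closure_iff.1 (hp i) (U ∩ {w}ᶜ)
        (hU.inter isOpen_compl_singleton) ⟨hpU, fun hh => hwp (mem_singleton_iff.1 hh).symm⟩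
      exact ⟨⟨(d, w), fun hh => hdw hh⟩, hUV ⟨hdU, hwV⟩, i, hdD, hwi⟩
  rw [← himg]
  exact hL.image hc2

omit [T2Space X] in
/-- With a cover of the co-diagonal by at most continuum many boxes: at most continuum many points
of `Y` have a Lindelöf complement in `Y`. -/
theorem mk_lindelof_diff_le (𝒰 : Set (Set (CoDiagonal X))) (h𝒰 : ∀ B ∈ 𝒰, IsBox B)
    (hcov : ⋃₀ 𝒰 = Set.univ) (hc : #𝒰 ≤ 𝔠) (Y : Set X) :
    #{x | x ∈ Y ∧ IsLindelof (Y \ {x})} ≤ 𝔠 := by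
  classical
  let V : 𝒰 → X → Set X := fun B x => {y | ∃ hxy : x ≠ y, (⟨(x, y), hxy⟩ : CoDiagonal X) ∈ B.1}
  have hch : ∀ B : 𝒰, ∃ U' V' : Set X, IsOpen U' ∧ IsOpen V' ∧ Disjoint U' V' ∧
      (B : Set (CoDiagonal X)) = {q | q.1.1 ∈ U' ∧ q.1.2 ∈ V'} := fun B => h𝒰 B B.2
  choose U' V' hU' hV' hdis hB using hch
  let Z : Set X := {x | x ∈ Y ∧ IsLindelof (Y \ {x})}
  have hsel : ∀ x : Z, ∃ r : Set 𝒰, r.Countable ∧ (∀ B ∈ r, (x : X) ∈ U' B) ∧
      Y \ {(x : X)} ⊆ ⋃ B ∈ r, V' B := by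
    intro x
    obtain ⟨r, hr, hcov'⟩ := x.2.2.elim_countable_subcover
      (fun B : {B : 𝒰 // (x : X) ∈ U' B} => V' B.1) (fun B => hV' B.1) (by
        rintro y ⟨hy, hyx⟩
        have hxy : (x : X) ≠ y := fun hh => hyx (mem_singleton_iff.2 hh.symm)
        obtain ⟨B, hBU, hmem⟩ := hcov.ge (mem_univ (⟨((x : X), y), hxy⟩ : CoDiagonal X))
        have hmem' : (⟨((x : X), y), hxy⟩ : CoDiagonal X) ∈
            ((⟨B, hBU⟩ : 𝒰) : Set (CoDiagonal X)) := hmem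
        rw [hB ⟨B, hBU⟩] at hmem'
        exact mem_iUnion.2 ⟨⟨⟨B, hBU⟩, hmem'.1⟩, hmem'.2⟩)
    refine ⟨Subtype.val '' r, hr.image _, ?_, ?_⟩
    · rintro _ ⟨B, -, rfl⟩
      exact B.2
    · intro y hy
      obtain ⟨B, hBr, hyB⟩ := mem_iUnion₂.1 (hcov' hy)
      exact mem_iUnion₂.2 ⟨B.1, ⟨B, hBr, rfl⟩, hyB⟩
  choose r hr hrU hrcov using hsel
  let Φ : Z → {t : Set 𝒰 // #t ≤ ℵ₀} := fun x =>
    ⟨r x, Cardinal.mk_le_aleph0_iff.2 (hr x).to_subtype⟩
  have hΦ : Function.Injective Φ := by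
    intro x y hxy
    by_contra hne
    have hne' : (y : X) ≠ x := fun hh => hne (Subtype.ext hh.symm)
    have h1 : r x = r y := congrArg Subtype.val hxy
    obtain ⟨B, hBr, hyB⟩ := mem_iUnion₂.1 (hrcov x ⟨y.2.1, hne'⟩)
    rw [h1] at hBr
    exact Set.disjoint_left.1 (hdis B) (hrU y B hBr) hyB
  refine (Cardinal.mk_le_of_injective hΦ).trans ?_
  have h2 : #{t : Set 𝒰 // #t ≤ ℵ₀} ≤ max #𝒰 ℵ₀ ^ ℵ₀ := Cardinal.mk_bounded_set_le 𝒰 ℵ₀
  refine h2.trans ((Cardinal.power_le_power_right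
    (max_le hc Cardinal.aleph0_le_continuum)).trans Cardinal.continuum_power_aleph0.le)

/-- The limit of a sequence of distinct points is a splitting point. -/
theorem exists_split_of_tendsto {p : X} (x : ℕ → X) (hinj : Function.Injective x)
    (hx : Tendsto x atTop (𝓝 p)) : ∃ D : ℕ → Set X, (∀ i j, i ≠ j → Disjoint (D i) (D j)) ∧
      IsDiscrete (⋃ i, D i) ∧ ∀ i, p ∈ closure (D i) := by
  classical
  let D : ℕ → Set X := fun i => {y | y ≠ p ∧ ∃ j, x (Nat.pair i j) = y}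
  refine ⟨D, ?_, ?_, ?_⟩
  · intro i j hij
    rw [Set.disjoint_left]
    rintro y ⟨-, a, ha⟩ ⟨-, b, hb⟩
    have h1 := hinj (ha.trans hb.symm)
    exact hij (Nat.pair_eq_pair.1 h1).1
  · rw [isDiscrete_iff_forall_mem_exists_isOpen]
    intro y hy
    obtain ⟨i, hyp, j, hj⟩ := mem_iUnion.1 hy
    obtain ⟨U, V, hU, hV, hyU, hpV, hdis⟩ := t2_separation hyp
    obtain ⟨n, hn⟩ := (Filter.eventually_atTop.1 (hx.eventually (hV.mem_nhds hpV)))
    let F : Set X := x '' {m | m < n} \ {y}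
    have hF : IsClosed F := (((Set.finite_lt_nat n).image x).subset sdiff_subset).isClosed
    refine ⟨U ∩ Fᶜ, hU.inter hF.isOpen_compl, Subset.antisymm ?_ ?_⟩
    · rintro z ⟨⟨hzU, hzF⟩, hz⟩
      obtain ⟨i', -, j', hj'⟩ := mem_iUnion.1 hz
      by_contra hzy
      by_cases hlt : Nat.pair i' j' < n
      · exact hzF ⟨⟨_, hlt, hj'⟩, hzy⟩
      · rw [not_lt] at hlt
        exact Set.disjoint_left.1 hdis hzU (hj' ▸ hn _ hlt)
    · rintro _ rfl
      exact ⟨⟨hyU, fun hh => hh.2 rfl⟩, hy⟩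
  · intro i
    rw [mem_closure_iff]
    intro O hO hpO
    have h1 : Tendsto (fun j => x (Nat.pair i j)) atTop (𝓝 p) := by
      refine hx.comp ?_
      refine tendsto_atTop_mono (fun j => Nat.right_le_pair i j) tendsto_id
    obtain ⟨n, hn⟩ := Filter.eventually_atTop.1 (h1.eventually (hO.mem_nhds hpO))
    by_cases h2 : x (Nat.pair i n) = p
    · refine ⟨x (Nat.pair i (n + 1)), hn _ (Nat.le_succ n), ?_, n + 1, rfl⟩
      intro h3
      have h4 := hinj (h2.trans h3.symm)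
      have h5 := (Nat.pair_eq_pair.1 h4).2
      omega
    · exact ⟨x (Nat.pair i n), hn n le_rfl, h2, n, rfl⟩

/-- A dense set `D` with `2 ^ #D ≤ 𝔠`: the co-diagonal has a cover by at most `𝔠` boxes. -/
theorem exists_boxes_of_dense (D : Set X) (hD : Dense D) (hDc : (2 : Cardinal.{u}) ^ #D ≤ 𝔠) :
    ∃ 𝒰 : Set (Set (CoDiagonal X)), (∀ B ∈ 𝒰, IsBox B) ∧ ⋃₀ 𝒰 = Set.univ ∧ #𝒰 ≤ 𝔠 := by
  classical
  let R : Set D → Set X := fun A => interior (closure (Subtype.val '' A))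
  let box : Set D × Set D → Set (CoDiagonal X) := fun p =>
    {q | q.1.1 ∈ R p.1 ∧ q.1.2 ∈ R p.2}
  have hR : ∀ U : Set X, IsOpen U → R (Subtype.val ⁻¹' U) = interior (closure U) := by
    intro U hU
    have h1 : Subtype.val '' (Subtype.val ⁻¹' U : Set D) = D ∩ U := Subtype.image_preimage_coe _ _
    change interior (closure (Subtype.val '' (Subtype.val ⁻¹' U : Set D))) = _
    rw [h1, inter_comm]
    congr 1
    exact Subset.antisymm (closure_mono inter_subset_left)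
      (closure_minimal (hD.open_subset_closure_inter hU) isClosed_closure)
  refine ⟨{B | IsBox B} ∩ range box, fun B hB => hB.1, ?_, ?_⟩
  · rw [eq_univ_iff_forall]
    intro p
    obtain ⟨U, V, hU, hV, h1, h2, hdis⟩ := t2_separation p.2
    refine ⟨box (Subtype.val ⁻¹' U, Subtype.val ⁻¹' V), ⟨⟨R _, R _, isOpen_interior,
      isOpen_interior, ?_, rfl⟩, ⟨_, rfl⟩⟩, ?_⟩
    · rw [hR U hU, hR V hV]
      have h3 : Disjoint (interior (closure U)) V := by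
        refine Disjoint.mono_left interior_subset ?_
        exact hdis.closure_left hV
      have h4 : Disjoint (interior (closure U)) (closure V) := h3.closure_right isOpen_interior
      exact h4.mono_right interior_subset
    · change p.1.1 ∈ R _ ∧ p.1.2 ∈ R _
      rw [hR U hU, hR V hV]
      exact ⟨hU.subset_interior_closure h1, hV.subset_interior_closure h2⟩
  · refine (Cardinal.mk_le_mk_of_subset inter_subset_right).trans (mk_range_le.trans ?_)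
    rw [Cardinal.mk_prod, Cardinal.mk_set, lift_id]
    exact (mul_le_mul' hDc hDc).trans (Cardinal.mul_eq_self aleph0_le_continuum).le

/-- The co-diagonal has a cover by at most `𝔠` boxes if the square has tightness at most `𝔠`. -/
theorem exists_boxes_of_tightness (h : DiscretelyLindelof (CoDiagonal X))
    (ht : TightnessLE (X × X) (𝔠 : Cardinal.{u})) :
    ∃ 𝒰 : Set (Set (CoDiagonal X)), (∀ B ∈ 𝒰, IsBox B) ∧ ⋃₀ 𝒰 = Set.univ ∧ #𝒰 ≤ 𝔠 := by
  obtain ⟨𝒱, h𝒱, hc, hcov⟩ := exists_subcover_of_tightness h aleph0_le_continuum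
    (tightness_codiagonal ht) {B : Set (CoDiagonal X) | IsBox B} (fun B hB => IsBox.isOpen hB)
    sUnion_isBox
  exact ⟨𝒱, fun B hB => h𝒱 hB, hcov, hc⟩

omit [T2Space X] in
/-- Every open cover of a discretely Lindelöf space has a subcover whose cardinality has countable
(or finite) cofinality. -/
theorem exists_subcover_cof (hL : DiscretelyLindelof X) (𝒰 : Set (Set X))
    (hopen : ∀ U ∈ 𝒰, IsOpen U) (hcov : ⋃₀ 𝒰 = Set.univ) :
    ∃ 𝒱 ⊆ 𝒰, (#𝒱).ord.cof ≤ ℵ₀ ∧ ⋃₀ 𝒱 = Set.univ := by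
  generalize hc : #𝒰 = c
  induction c using WellFoundedLT.induction generalizing 𝒰 with
  | ind c ih =>
    subst hc
    by_cases h0 : (#𝒰).ord.cof ≤ ℵ₀
    · exact ⟨𝒰, Subset.rfl, h0, hcov⟩
    · rw [not_le] at h0
      obtain ⟨𝒱, h𝒱, hlt, hcov'⟩ := exists_lt_subcover hL 𝒰 hopen hcov h0
      obtain ⟨𝒲, h𝒲, h1, h2⟩ := ih _ hlt 𝒱 (fun U hU => hopen U (h𝒱 hU)) hcov' rfl
      exact ⟨𝒲, h𝒲.trans h𝒱, h1, h2⟩

omit [T2Space X] in
/-- With at most `𝔠` boxes: `#X ≤ 2 ^ ν` for some `ν < 𝔠` of countable cofinality. -/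
theorem exists_bound_of_boxes (h : DiscretelyLindelof (CoDiagonal X))
    (𝒰 : Set (Set (CoDiagonal X))) (h𝒰 : ∀ B ∈ 𝒰, IsBox B) (hcov : ⋃₀ 𝒰 = Set.univ)
    (hc : #𝒰 ≤ 𝔠) : ∃ ν : Cardinal.{u}, ν < 𝔠 ∧ ν.ord.cof ≤ ℵ₀ ∧ #X ≤ 2 ^ ν := by
  obtain ⟨𝒱, h𝒱, hcof, hcov'⟩ := exists_subcover_cof h 𝒰 (fun B hB => (h𝒰 B hB).isOpen) hcov
  refine ⟨#𝒱, ((Cardinal.mk_le_mk_of_subset h𝒱).trans hc).lt_of_ne fun hh => ?_, hcof,
    card_le_of_boxes 𝒱 (fun B hB => h𝒰 B (h𝒱 hB)) hcov'⟩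
  rw [hh, ← Cardinal.two_power_aleph0] at hcof
  exact absurd hcof (not_le.2 (Cardinal.lt_cof_ord_power le_rfl Cardinal.one_lt_two))

/-- `p` is a splitting point: it is in the closure of each of countably many disjoint sets whose
union is a discrete subspace. -/
def IsSplit {Y : Type u} [TopologicalSpace Y] (p : Y) : Prop :=
  ∃ D : ℕ → Set Y, (∀ i j, i ≠ j → Disjoint (D i) (D j)) ∧ DiscreteTopology (⋃ i, D i) ∧
    ∀ i, p ∈ closure (D i)

/-- With at most `𝔠` boxes and a dense countable union of discrete sets, at most `𝔠` points are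
splitting points. -/
theorem mk_split_le (h : DiscretelyLindelof (CoDiagonal X)) (𝒰 : Set (Set (CoDiagonal X)))
    (h𝒰 : ∀ B ∈ 𝒰, IsBox B) (hcov : ⋃₀ 𝒰 = Set.univ) (hc : #𝒰 ≤ 𝔠) (Q : ℕ → Set X)
    (hQ : ∀ n, DiscreteTopology (Q n)) (hd : Dense (⋃ n, Q n)) : #{p : X | IsSplit p} ≤ 𝔠 := by
  refine (Cardinal.mk_le_mk_of_subset ?_).trans (mk_lindelof_diff_le 𝒰 h𝒰 hcov hc Set.univ)
  rintro p ⟨D, hD1, hD2, hD3⟩
  refine ⟨mem_univ p, ?_⟩
  have h6 := isLindelof_of_split h D Q hD1 ⟨hD2⟩ p hD3 (fun n => ⟨hQ n⟩)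
  rw [hd.closure_eq] at h6
  exact h6

end Pool.Agent.CoDiag
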