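import Pool.Agent.Lib.MP_aae0ca_gt.Main

/-! # Tightness (MP_aae0ca_gt) -/

open Cardinal Set Topology

universe u

namespace Pool.Agent.CoDiag

theorem exists_upper {κ : Cardinal.{u}} (hκ : κ.IsRegular) (C : Set κ.ord.ToType) (hC : #C < κ) :
    ∃ b, ∀ c ∈ C, c < b := by
  by_contra hcon
  push Not at hcon
  have h1 : (⋃ c : C, Iic c.1) = (univ : Set κ.ord.ToType) := by
    rw [eq_univ_iff_forall]
    intro b
    obtain ⟨c, hc, hbc⟩ := hcon b
    exact mem_iUnion.2 ⟨⟨c, hc⟩, hbc⟩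
  have h2 : #(⋃ c : C, Iic c.1) < κ :=
    (card_iUnion_lt_iff_forall_of_isRegular hκ hC).2 fun c => mk_Iic_lt_of_ord hκ.aleph0_le _
  rw [h1, Cardinal.mk_univ, Cardinal.mk_ord_toType] at h2
  exact lt_irrefl _ h2

variable {X : Type u} [TopologicalSpace X] [T2Space X]

omit [T2Space X] in
theorem isDiscrete_of_free {κ : Cardinal.{u}} (hκ : κ.IsRegular) {x : κ.ord.ToType → X}
    (hx : IsFreeSequence x) : IsDiscrete (range x) := by
  rw [isDiscrete_iff_forall_mem_exists_isOpen]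
  rintro _ ⟨k, rfl⟩
  have hex : ∃ k', k < k' := by
    obtain ⟨b, hb⟩ := exists_upper hκ {k} (by
      rw [Cardinal.mk_singleton]; exact Cardinal.one_lt_aleph0.trans_le hκ.aleph0_le)
    exact ⟨b, hb k rfl⟩
  obtain ⟨k', hk', hmin⟩ := WellFounded.has_min (wellFounded_lt (α := κ.ord.ToType)) {b | k < b} hex
  refine ⟨(closure (x '' Iio k))ᶜ ∩ (closure (x '' Ici k'))ᶜ,
    isClosed_closure.isOpen_compl.inter isClosed_closure.isOpen_compl, Subset.antisymm ?_ ?_⟩
  · rintro _ ⟨⟨h1, h2⟩, ⟨j, rfl⟩⟩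
    rcases lt_trichotomy j k with hj | hj | hj
    · exact absurd (subset_closure (mem_image_of_mem x (mem_Iio.2 hj))) h1
    · rw [hj]; exact rfl
    · exact absurd (subset_closure (mem_image_of_mem x (mem_Ici.2 (not_lt.1 (hmin j hj))))) h2
  · rintro _ rfl
    refine ⟨⟨fun hh => ?_, fun hh => ?_⟩, ⟨k, rfl⟩⟩
    · exact Set.disjoint_left.1 (hx k) hh (subset_closure (mem_image_of_mem x (mem_Ici.2 le_rfl)))
    · exact Set.disjoint_left.1 (hx k') (subset_closure (mem_image_of_mem x (mem_Iio.2 hk'))) hh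

omit [T2Space X] in
theorem not_free_of_tightness (hX : ∀ D : Set X, IsDiscrete D → IsLindelof (closure D))
    {ν : Cardinal.{u}} (hν : ℵ₀ ≤ ν) (ht : TightnessLE X ν) (x : (Order.succ ν).ord.ToType → X) :
    ¬ IsFreeSequence x := by
  classical
  intro hx
  have hκ : (Order.succ ν).IsRegular := isRegular_succ hν
  have hL := hX _ (isDiscrete_of_free hκ hx)
  obtain ⟨r, hr, hcov⟩ := hL.elim_countable_subcover (fun a => (closure (x '' Ici a))ᶜ)
    (fun a => isClosed_closure.isOpen_compl) (by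
    intro y hy
    obtain ⟨B, hB, hBν, hyB⟩ := ht _ y hy
    have hch : ∀ b : B, ∃ i, x i = b := fun b => hB b.2
    choose i hi using hch
    obtain ⟨a, ha⟩ := exists_upper hκ (range i) (mk_range_le.trans_lt
      (Order.lt_succ_iff.2 hBν))
    refine mem_iUnion.2 ⟨a, fun hh => ?_⟩
    have h1 : B ⊆ x '' Iio a := by
      intro b hb
      exact ⟨i ⟨b, hb⟩, ha _ ⟨_, rfl⟩, hi ⟨b, hb⟩⟩
    exact Set.disjoint_left.1 (hx a) (closure_mono h1 hyB) hh)
  obtain ⟨b, hb⟩ := exists_upper hκ r ((Cardinal.mk_le_aleph0_iff.2 hr.to_subtype).trans_lt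
    (hν.trans_lt (Order.lt_succ ν)))
  obtain ⟨a, har, hab⟩ := mem_iUnion₂.1 (hcov (subset_closure (mem_range_self b)))
  exact hab (subset_closure (mem_image_of_mem x (mem_Ici.2 (hb a har).le)))

theorem card_le_of_tightness (h : DiscretelyLindelof (CoDiagonal X)) {ν : Cardinal.{u}}
    (hν : ℵ₀ ≤ ν) (ht : TightnessLE X ν) : #X ≤ 2 ^ ν := by
  refine card_le_of_no_free h (isRegular_succ hν) (hν.trans_lt (Order.lt_succ ν)) ?_ ?_
    (not_free_of_tightness (fun D hD => isLindelof_closure h hD) hν ht)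
  · rw [← Cardinal.two_power_aleph0]
    exact Cardinal.power_le_power_left two_ne_zero hν
  · intro l hl
    rw [← Cardinal.power_mul]
    refine Cardinal.power_le_power_left two_ne_zero ?_
    exact (mul_le_mul' le_rfl (Order.lt_succ_iff.1 hl)).trans (Cardinal.mul_eq_self hν).le

end Pool.Agent.CoDiag
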