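import Pool.Agent.Lib.MP_aae0ca_gt.Small
import Pool.Agent.Lib.MP_aae0ca_gt.Split

/-! # Quotients by intersections of chains of closed subgroups (MP_aae0ca_gt) -/

open Cardinal hiding univ
open Set Topology

universe u

namespace Pool.Agent.CoDiag

/-- A set of infinite cardinality is an increasing union of few smaller sets. -/
theorem exists_filtration {α : Type u} (A : Set α) (h : ℵ₀ ≤ #A) :
    ∃ F : ((#A).ord.cof).ord.ToType → Set α,
      Monotone F ∧ (∀ i, #(F i) < #A) ∧ ⋃ i, F i = A := by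
  classical
  obtain ⟨f, hf⟩ := Ordinal.exists_isFundamentalSeq (o := (#A).ord) rfl
  let g : ((#A).ord.cof).ord.ToType → (#A).ord.ToType := fun i =>
    Ordinal.ToType.mk (f (Ordinal.ToType.mk.symm i))
  have hgmono : StrictMono g := fun i j hij =>
    Ordinal.ToType.mk.strictMono (hf.strictMono (Ordinal.ToType.mk.symm.strictMono hij))
  have hgcof : ∀ b, ∃ i, b ≤ g i := by
    intro b
    obtain ⟨_, ⟨c, rfl⟩, hc⟩ := hf.isCofinal_range (Ordinal.ToType.mk.symm b)
    refine ⟨Ordinal.ToType.mk c, ?_⟩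
    have h1 := Ordinal.ToType.mk.monotone hc
    rw [OrderIso.apply_symm_apply] at h1
    simpa [g] using h1
  have he : #((#A).ord.ToType) = #A := by rw [Cardinal.mk_ord_toType]
  obtain ⟨e⟩ := Cardinal.eq.1 he
  refine ⟨fun i => (fun j => (e j : α)) '' Iic (g i), ?_, ?_, ?_⟩
  · intro i j hij
    exact image_mono (Iic_subset_Iic.2 (hgmono.monotone hij))
  · intro i
    exact mk_image_le.trans_lt (mk_Iic_lt_of_ord h _)
  · apply Subset.antisymm
    · refine iUnion_subset fun i => ?_
      rintro _ ⟨j, -, rfl⟩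
      exact (e j).2
    · intro a ha
      obtain ⟨i, hi⟩ := hgcof (e.symm ⟨a, ha⟩)
      refine mem_iUnion.2 ⟨i, e.symm ⟨a, ha⟩, hi, ?_⟩
      simp

/-- There are at most `𝔠` subsets of `μ`, each of size less than `μ`, such that every subset of `μ`
of size `cof μ` meets one of them in `cof μ` many points. -/
def CoveredBy (μ : Cardinal.{u}) : Prop :=
  ∃ 𝓕 : Set (Set μ.ord.ToType), #𝓕 ≤ 𝔠 ∧ (∀ F ∈ 𝓕, #F < μ) ∧
    ∀ X : Set μ.ord.ToType, #X = μ.ord.cof → ∃ F ∈ 𝓕, #(X ∩ F : Set μ.ord.ToType) = μ.ord.cof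

variable {G : Type u} [Group G] [TopologicalSpace G]

/-- The quotient by the intersection of a decreasing chain of uncountable regular length of closed
subgroups of index at most continuum. -/
theorem mk_quotient_tree [IsTopologicalGroup G] (hL : DiscretelyLindelof G) {l : Cardinal.{u}}
    (hl0 : ℵ₀ ≤ l) (hcl : ∀ A : Set G, #A ≤ l → #(closure A) ≤ 𝔠)
    {κ : Cardinal.{u}} (hκ : κ.IsRegular) (hκ' : ℵ₀ < κ) (hκc : κ ≤ 𝔠)
    (hreg : ∀ μ : Cardinal.{u}, l < μ → μ ≤ 𝔠 → μ.ord.cof = κ → CoveredBy μ)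
    (P : κ.ord.ToType → Subgroup G) (hP : Antitone P) (hPc : ∀ i, IsClosed (P i : Set G))
    (hPq : ∀ i, #(G ⧸ P i) ≤ 𝔠) : #(G ⧸ ⨅ i, P i) ≤ 𝔠 := by
  classical
  let π : G → G ⧸ ⨅ i, P i := fun g => QuotientGroup.mk g
  let Br : Set G → Set G := fun A => {g | ∀ i, ∃ a ∈ A, a⁻¹ * g ∈ P i}
  have key : ∀ A : Set G, #A ≤ 𝔠 → #(π '' Br A) ≤ 𝔠 := by
    intro A
    generalize hc : #A = c
    induction c using WellFoundedLT.induction generalizing A with
    | ind c ih =>
      intro hc𝔠
      subst hc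
      rcases le_or_gt (#A) l with hAl | hAl
      · -- few elements: branches meet the closure
        refine (Cardinal.mk_le_mk_of_subset (t := π '' closure A) ?_).trans
          (mk_image_le.trans (hcl A hAl))
        rintro _ ⟨g, hg, rfl⟩
        let W : κ.ord.ToType → Set G := fun i => (closure (A ∩ {a | a⁻¹ * g ∈ P i}))ᶜ
        have hz : ∃ z, ∀ i, z ∈ closure (A ∩ {a | a⁻¹ * g ∈ P i}) := by
          by_contra hcon
          push Not at hcon
          obtain ⟨i, hi⟩ := exists_eq_univ hL hκ hκ' W (fun i => isClosed_closure.isOpen_compl) (by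
            intro i j hij
            refine compl_subset_compl.2 (closure_mono ?_)
            rintro a ⟨ha, ha'⟩
            exact ⟨ha, hP hij ha'⟩) (by
            rw [eq_univ_iff_forall]
            intro z
            obtain ⟨i, hi⟩ := hcon z
            exact mem_iUnion.2 ⟨i, hi⟩)
          obtain ⟨a, ha, hai⟩ := hg i
          have h1 : a ∈ W i := by rw [hi]; exact mem_univ a
          exact h1 (subset_closure ⟨ha, hai⟩)
        obtain ⟨z, hz⟩ := hz
        have hne : Nonempty κ.ord.ToType := by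
          rw [← Cardinal.mk_ne_zero_iff, Cardinal.mk_ord_toType]
          exact (Cardinal.aleph0_pos.trans hκ').ne'
        obtain ⟨i₀⟩ := hne
        refine ⟨z, closure_mono inter_subset_left (hz i₀), ?_⟩
        refine QuotientGroup.eq.2 (Subgroup.mem_iInf.2 fun i => ?_)
        have h1 : IsClosed {a : G | a⁻¹ * g ∈ P i} :=
          (hPc i).preimage (continuous_inv.mul continuous_const)
        exact closure_minimal inter_subset_right h1 (hz i)
      · -- many elements
        by_cases hcofκ : (#A).ord.cof = κ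
        · obtain ⟨𝓕, h𝓕c, h𝓕lt, h𝓕⟩ := hreg _ hAl hc𝔠 hcofκ
          obtain ⟨e⟩ := Cardinal.eq.1 (show #((#A).ord.ToType) = #A by rw [Cardinal.mk_ord_toType])
          let E : Set (#A).ord.ToType → Set G := fun F => (fun j => (e j : G)) '' F
          have hsub : π '' Br A ⊆ (⋃ F : 𝓕, π '' Br (E F)) ∪ π '' A := by
            rintro _ ⟨g, hg, rfl⟩
            choose a ha hag using hg
            let x : κ.ord.ToType → (#A).ord.ToType := fun i => e.symm ⟨a i, ha i⟩
            have hex : ∀ i, (e (x i) : G) = a i := fun i => by simp [x]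
            have hXle : #(range x) ≤ κ := mk_range_le.trans (by rw [Cardinal.mk_ord_toType])
            rcases hXle.lt_or_eq with hX | hX
            · -- a constant subsequence
              right
              have h1 : ∃ y, ∀ i, ∃ i', i < i' ∧ x i' = y := by
                by_contra hcon
                push Not at hcon
                choose b hb using hcon
                obtain ⟨c, hc⟩ := exists_upper hκ (b '' range x) (mk_image_le.trans_lt hX)
                obtain ⟨d, hd⟩ := exists_upper hκ {c} (by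
                  rw [Cardinal.mk_singleton]; exact Cardinal.one_lt_aleph0.trans hκ')
                exact hb (x d) d ((hc _ ⟨_, ⟨d, rfl⟩, rfl⟩).trans (hd c rfl)) rfl
              obtain ⟨y, hy⟩ := h1
              refine ⟨e y, (e y).2, ?_⟩
              refine QuotientGroup.eq.2 (Subgroup.mem_iInf.2 fun i => ?_)
              obtain ⟨i', hi', hyi⟩ := hy i
              have h2 := hag i'
              rw [← hex i', hyi] at h2
              exact hP hi'.le h2
            · left
              obtain ⟨F, hF, hFX⟩ := h𝓕 (range x) (hX.trans hcofκ.symm)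
              refine mem_iUnion.2 ⟨⟨F, hF⟩, g, fun i => ?_, rfl⟩
              by_contra hcon
              have h1 : (range x ∩ F : Set _) ⊆ x '' Iio i := by
                rintro _ ⟨⟨i', rfl⟩, hi'⟩
                refine ⟨i', ?_, rfl⟩
                rw [mem_Iio]
                by_contra hlt
                rw [not_lt] at hlt
                exact hcon ⟨e (x i'), ⟨x i', hi', rfl⟩, by
                  rw [hex i']; exact hP hlt (hag i')⟩
              have h2 := (Cardinal.mk_le_mk_of_subset h1).trans_lt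
                (mk_image_le.trans_lt (mk_Iio_lt_of_ord i))
              rw [hFX, hcofκ] at h2
              exact lt_irrefl _ h2
          refine (Cardinal.mk_le_mk_of_subset hsub).trans ((Cardinal.mk_union_le _ _).trans
            (Cardinal.add_le_of_le aleph0_le_continuum ?_ (mk_image_le.trans hc𝔠)))
          refine Cardinal.mk_iUnion_le_sum_mk.trans ?_
          have hElt : ∀ F : 𝓕, #(E F) < #A := fun F => mk_image_le.trans_lt (h𝓕lt F F.2)
          refine (Cardinal.sum_le_sum _ (fun _ => 𝔠) fun F =>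
            ih _ (hElt F) (E F) rfl ((hElt F).le.trans hc𝔠)).trans ?_
          rw [Cardinal.sum_const, lift_id, lift_id]
          exact (mul_le_mul' h𝓕c le_rfl).trans (Cardinal.mul_eq_self aleph0_le_continuum).le
        obtain ⟨F, hFmono, hFlt, hFU⟩ := exists_filtration A (hl0.trans hAl.le)
        have hν : ((#A).ord.cof).IsRegular :=
          isRegular_cof (isSuccLimit_ord (hl0.trans hAl.le))
        have hsub : π '' Br A ⊆ ⋃ j, π '' Br (F j) := by
          rintro _ ⟨g, hg, rfl⟩
          suffices hs : ∃ j, g ∈ Br (F j) by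
            obtain ⟨j, hj⟩ := hs
            exact mem_iUnion.2 ⟨j, g, hj, rfl⟩
          rcases lt_or_gt_of_ne hcofκ with hlt | hlt
          · by_contra hcon
            push Not at hcon
            have hcon' : ∀ j, ∃ i, ∀ a ∈ F j, a⁻¹ * g ∉ P i := by
              intro j
              have h1 := hcon j
              simp only [Br, mem_ofPred_eq, not_forall, not_exists, not_and] at h1
              exact h1
            choose i hi using hcon'
            obtain ⟨b, hb⟩ := exists_upper hκ (range i) (mk_range_le.trans_lt (by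
              rw [Cardinal.mk_ord_toType]; exact hlt))
            obtain ⟨a, ha, hab⟩ := hg b
            rw [← hFU] at ha
            obtain ⟨j, hj⟩ := mem_iUnion.1 ha
            exact hi j a hj (hP (hb _ ⟨j, rfl⟩).le hab)
          · have hch : ∀ i, ∃ j, ∃ a ∈ F j, a⁻¹ * g ∈ P i := by
              intro i
              obtain ⟨a, ha, hai⟩ := hg i
              rw [← hFU] at ha
              obtain ⟨j, hj⟩ := mem_iUnion.1 ha
              exact ⟨j, a, hj, hai⟩
            choose j hj using hch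
            obtain ⟨b, hb⟩ := exists_upper hν (range j) (mk_range_le.trans_lt (by
              rw [Cardinal.mk_ord_toType]; exact hlt))
            refine ⟨b, fun i => ?_⟩
            obtain ⟨a, ha, hai⟩ := hj i
            exact ⟨a, hFmono (hb _ ⟨i, rfl⟩).le ha, hai⟩
        refine (Cardinal.mk_le_mk_of_subset hsub).trans (Cardinal.mk_iUnion_le_sum_mk.trans ?_)
        refine (Cardinal.sum_le_sum _ (fun _ => 𝔠) fun j =>
          ih _ (hFlt j) (F j) rfl ((hFlt j).le.trans hc𝔠)).trans ?_
        rw [Cardinal.sum_const, lift_id, lift_id, Cardinal.mk_ord_toType]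
        exact (mul_le_mul' ((Ordinal.cof_ord_le _).trans hc𝔠) le_rfl).trans
          (Cardinal.mul_eq_self aleph0_le_continuum).le
  let A : Set G := ⋃ i, range fun q : G ⧸ P i => q.out
  have hA : #A ≤ 𝔠 := by
    refine Cardinal.mk_iUnion_le_sum_mk.trans ?_
    refine (Cardinal.sum_le_sum _ (fun _ => 𝔠) fun i => mk_range_le.trans (hPq i)).trans ?_
    rw [Cardinal.sum_const, lift_id, lift_id, Cardinal.mk_ord_toType]
    exact (mul_le_mul' hκc le_rfl).trans (Cardinal.mul_eq_self aleph0_le_continuum).le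
  have h1 : π '' Br A = Set.univ := by
    rw [eq_univ_iff_forall]
    intro q
    obtain ⟨g, rfl⟩ := QuotientGroup.mk_surjective q
    refine ⟨g, fun i => ⟨(QuotientGroup.mk g : G ⧸ P i).out, mem_iUnion.2 ⟨i, _, rfl⟩, ?_⟩, rfl⟩
    exact QuotientGroup.eq.1 (QuotientGroup.out_eq' _)
  have h2 := key A hA
  rwa [h1, Cardinal.mk_univ] at h2

omit [TopologicalSpace G] in
/-- Intersections of countably many subgroups of index at most continuum. -/
theorem mk_quotient_countable {ι : Type u} (hι : #ι ≤ ℵ₀) (P : ι → Subgroup G)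
    (hP : ∀ i, #(G ⧸ P i) ≤ 𝔠) : #(G ⧸ ⨅ i, P i) ≤ 𝔠 := by
  refine (Cardinal.mk_le_of_injective (Subgroup.quotientiInfEmbedding P).injective).trans ?_
  rw [Cardinal.mk_pi]
  refine (Cardinal.prod_le_prod _ (fun _ => 𝔠) hP).trans ?_
  rw [Cardinal.prod_const, lift_id, lift_id]
  exact (Cardinal.power_le_power_left Cardinal.continuum_ne_zero hι).trans
    Cardinal.continuum_power_aleph0.le

/-- The quotient by an intersection of few closed subgroups of index at most continuum. -/
theorem mk_quotient_iInf_le [IsTopologicalGroup G] (hL : DiscretelyLindelof G) {l : Cardinal.{u}}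
    (hl0 : ℵ₀ ≤ l) (hlc : l ≤ 𝔠)
    (hcl : ∀ A : Set G, #A ≤ l → #(closure A) ≤ 𝔠)
    (hreg : ∀ μ : Cardinal.{u}, l < μ → μ ≤ 𝔠 → ℵ₀ < μ.ord.cof → μ.ord.cof < μ → CoveredBy μ)
    (N : G → Subgroup G) (hN : ∀ g, IsClosed (N g : Set G)) (hNq : ∀ g, #(G ⧸ N g) ≤ 𝔠)
    (B : Set G) (hB : #B ≤ l) : #(G ⧸ ⨅ b : B, N b) ≤ 𝔠 := by
  classical
  generalize hc : #B = c at hB
  induction c using WellFoundedLT.induction generalizing B with
  | ind c ih =>
    subst hc
    rcases le_or_gt (#B) ℵ₀ with hB0 | hB0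
    · exact mk_quotient_countable hB0 _ (fun b => hNq b)
    · obtain ⟨F, hFmono, hFlt, hFU⟩ := exists_filtration B hB0.le
      let P : ((#B).ord.cof).ord.ToType → Subgroup G := fun i => ⨅ b : F i, N b
      have hPmono : Antitone P := by
        intro i j hij g hg
        simp only [P, Subgroup.mem_iInf] at hg ⊢
        exact fun b => hg ⟨b, hFmono hij b.2⟩
      have hPinf : (⨅ b : B, N b) = ⨅ i, P i := by
        ext g
        simp only [P, Subgroup.mem_iInf]
        constructor
        · intro hg i b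
          exact hg ⟨b, hFU ▸ mem_iUnion.2 ⟨i, b.2⟩⟩
        · intro hg b
          have hb : (b : G) ∈ ⋃ i, F i := by rw [hFU]; exact b.2
          obtain ⟨i, hi⟩ := mem_iUnion.1 hb
          exact hg i ⟨b, hi⟩
      have hPq : ∀ i, #(G ⧸ P i) ≤ 𝔠 := fun i =>
        ih _ (hFlt i) (F i) rfl ((hFlt i).le.trans hB)
      rw [hPinf]
      rcases le_or_gt ((#B).ord.cof) ℵ₀ with hcof | hcof
      · exact mk_quotient_countable (by rw [Cardinal.mk_ord_toType]; exact hcof) P hPq
      · have hBl : (#B).ord.cof ≤ l := (Ordinal.cof_ord_le _).trans hB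
        refine mk_quotient_tree hL hl0 hcl (isRegular_cof (isSuccLimit_ord hB0.le)) hcof
          (hBl.trans hlc) (fun μ hμ hμc hμ' => ?_) P hPmono (fun i => ?_) hPq
        · exact hreg μ hμ hμc (hμ' ▸ hcof) (hμ' ▸ hBl.trans_lt hμ)
        · have h1 : (P i : Set G) = ⋂ b : F i, (N b : Set G) := by
            simp [P, Subgroup.coe_iInf]
          rw [h1]
          exact isClosed_iInter fun b => hN b

/-- If the singular cardinals at most `𝔠` of uncountable cofinality satisfy a covering property,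
then a Hausdorff topological group with a discretely Lindelöf co-diagonal has at most `𝔠`
points. -/
theorem card_le_of_covered [IsTopologicalGroup G] [T2Space G]
    (h : DiscretelyLindelof (CoDiagonal G))
    (hreg : ∀ μ : Cardinal.{u}, μ ≤ 𝔠 → ℵ₀ < μ.ord.cof → μ.ord.cof < μ → CoveredBy μ) :
    #G ≤ 𝔠 := by
  classical
  obtain ⟨𝒢, M, O, hc, hM, hsep⟩ := exists_subgroups h
  have hv : ∀ g : G, ∃ V : Set G, g ≠ 1 → (V ∈ 𝒢 ∧ g ∉ M V) := by
    intro g
    by_cases hg : g = 1
    · exact ⟨∅, fun hh => absurd hg hh⟩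
    · obtain ⟨V, hV⟩ := hsep g hg
      exact ⟨V, fun _ => hV⟩
  choose v hv using hv
  let N : G → Subgroup G := fun g => if g = 1 then ⊤ else M (v g)
  have hN1 : N 1 = ⊤ := if_pos rfl
  have hNg : ∀ g, g ≠ 1 → N g = M (v g) := fun g hg => if_neg hg
  have hN : ∀ g, g ≠ 1 → IsClosed (N g : Set G) ∧ g ∉ N g := fun g hg => by
    rw [hNg g hg]
    exact ⟨(hM _ (hv g hg).1).1, (hv g hg).2⟩
  have hNcl : ∀ g, IsClosed (N g : Set G) := by
    intro g
    by_cases hg : g = 1
    · rw [hg, hN1]
      exact isClosed_univ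
    · exact (hN g hg).1
  -- indices
  have hMq : ∀ V ∈ 𝒢, #(G ⧸ M V) ≤ 𝔠 := by
    intro V hV
    have hnet : ∀ n : ℕ, ∃ (W : Set G) (e : ℕ → G),
        (∀ w ∈ W, w⁻¹ ∈ W) ∧ (∀ v ∈ W, ∀ w ∈ W, v * w ∈ O V n) ∧ ∀ x, ∃ k, (e k)⁻¹ * x ∈ W := by
      intro n
      have h1 : (1 : G) ∈ O V n := by
        have h2 : (1 : G) ∈ (M V : Set G) := (M V).one_mem
        rw [(hM V hV).2.2] at h2
        exact mem_iInter.1 h2 n
      obtain ⟨W, hW, h1W, hWinv, hWW⟩ := exists_sym (((hM V hV).2.1 n).mem_nhds h1)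
      obtain ⟨A, hA, hAnet⟩ := exists_countable_net h (hW.mem_nhds h1W)
      have hAne : A.Nonempty := by
        obtain ⟨a, ha, -⟩ := hAnet 1
        exact ⟨a, ha⟩
      obtain ⟨e, rfl⟩ := hA.exists_eq_range hAne
      refine ⟨W, e, hWinv, hWW, fun x => ?_⟩
      obtain ⟨_, ⟨k, rfl⟩, hk⟩ := hAnet x
      exact ⟨k, hk⟩
    choose W e hWinv hWW hWe using hnet
    choose k hk using hWe
    let Φ : (G ⧸ M V) → (ℕ → ℕ) := fun q n => k n q.out
    have hΦ : Function.Injective Φ := by
      intro q r hqr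
      have h1 : (q.out)⁻¹ * r.out ∈ (M V : Set G) := by
        rw [(hM V hV).2.2]
        refine mem_iInter.2 fun n => ?_
        have h4 := hk n q.out
        have h5 := hk n r.out
        have h6 : k n q.out = k n r.out := congrFun hqr n
        rw [h6] at h4
        have h7 := hWW n _ (hWinv n _ h4) _ h5
        have h8 : ((e n (k n r.out))⁻¹ * q.out)⁻¹ * ((e n (k n r.out))⁻¹ * r.out) =
            (q.out)⁻¹ * r.out := by group
        rwa [h8] at h7
      have h2 : (QuotientGroup.mk q.out : G ⧸ M V) = QuotientGroup.mk r.out :=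
        QuotientGroup.eq.2 h1
      rwa [QuotientGroup.out_eq', QuotientGroup.out_eq'] at h2
    have h3 := Cardinal.mk_le_of_injective (Function.Injective.comp ULift.up_injective hΦ)
      (β := ULift.{u} (ℕ → ℕ))
    refine h3.trans ?_
    rw [Cardinal.mk_uLift]
    simp
  have hNq : ∀ g, #(G ⧸ N g) ≤ 𝔠 := by
    intro g
    by_cases hg : g = 1
    · rw [hg, hN1]
      have h1 : Subsingleton (G ⧸ (⊤ : Subgroup G)) := QuotientGroup.subsingleton_quotient_top
      exact (Cardinal.le_one_iff_subsingleton.2 h1).trans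
        (Cardinal.one_le_aleph0.trans aleph0_le_continuum)
    · rw [hNg g hg]
      exact hMq _ (hv g hg).1
  -- the least size of a trivialising set
  let Triv : Set G → Prop := fun A => ∀ x, x ≠ 1 → ∃ a ∈ A, a ≠ 1 ∧ x ∉ N a
  have hex : ∃ A : Set G, #A ≤ 𝔠 ∧ Triv A := by
    have hg : ∀ V : 𝒢, ∃ g : G, (∃ g', g' ≠ 1 ∧ v g' = V) → g ≠ 1 ∧ v g = V := by
      intro V
      by_cases hV : ∃ g', g' ≠ 1 ∧ v g' = V
      · obtain ⟨g, hg⟩ := hV
        exact ⟨g, fun _ => hg⟩
      · exact ⟨1, fun hh => absurd hh hV⟩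
    choose g hg using hg
    refine ⟨range g, mk_range_le.trans hc, fun x hx => ?_⟩
    obtain ⟨h1, h2⟩ := hg ⟨v x, (hv x hx).1⟩ ⟨x, hx, rfl⟩
    refine ⟨_, ⟨⟨v x, (hv x hx).1⟩, rfl⟩, h1, ?_⟩
    rw [hNg _ h1, h2]
    exact (hv x hx).2
  obtain ⟨A₁, hA₁c, hA₁⟩ := hex
  obtain ⟨l, ⟨A₀, hA₀l, hA₀⟩, hmin⟩ := WellFounded.has_min Cardinal.lt_wf
    {c : Cardinal.{u} | ∃ A : Set G, #A = c ∧ Triv A} ⟨_, A₁, rfl, hA₁⟩
  have hlc : l ≤ 𝔠 := (not_lt.1 (hmin _ ⟨A₁, rfl, hA₁⟩)).trans hA₁c
  have hltriv : ∀ A : Set G, Triv A → l ≤ #A := fun A hA => not_lt.1 (hmin _ ⟨A, rfl, hA⟩)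
  have hl : ∀ A : Set G, #A < l → ∃ x, x ≠ 1 ∧ ∀ a ∈ A, a ≠ 1 → x ∈ N a := by
    intro A hA
    have h1 : ¬ Triv A := fun hh => absurd (hltriv A hh) (not_le.2 hA)
    simp only [Triv] at h1
    push Not at h1
    exact h1
  rcases le_or_gt l ℵ₀ with hl0 | hl0
  · -- countable pseudocharacter
    refine card_le_of_countable h
      ({V | (IsOpen V ∧ (1 : G) ∈ V)} ∩ range fun p : A₀ × ℕ => O (v p.1) p.2)
      (fun V hV => hV.1.1.mem_nhds hV.1.2) ?_ ?_
    · intro x hx
      obtain ⟨a, ha, ha1, hxa⟩ := hA₀ x hx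
      have hMa := hM _ (hv a ha1).1
      rw [hNg a ha1] at hxa
      have h1 : x ∉ ⋂ n, O (v a) n := by
        rw [← hMa.2.2]
        exact hxa
      rw [mem_iInter] at h1
      push Not at h1
      obtain ⟨n, hn⟩ := h1
      refine ⟨O (v a) n, ⟨⟨hMa.2.1 n, ?_⟩, ⟨(⟨a, ha⟩, n), rfl⟩⟩, hn⟩
      have h2 : (1 : G) ∈ ⋂ n, O (v a) n := by
        rw [← hMa.2.2]
        exact (M (v a)).one_mem
      exact mem_iInter.1 h2 n
    · refine (Cardinal.mk_le_mk_of_subset inter_subset_right).trans (mk_range_le.trans ?_)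
      have h1 : #(A₀ × ℕ) = l * ℵ₀ := by
        rw [← hA₀l]
        simp
      rw [h1]
      exact (mul_le_mul' hl0 le_rfl).trans Cardinal.aleph0_mul_aleph0.le
  · -- cofinality of `l`
    have hlcof : l.ord.cof ≤ ℵ₀ := by
      let W : G → Set (CoDiagonal G) := fun a => {p | p.1.1⁻¹ * p.1.2 ∉ N a}
      have hWo : ∀ a, IsOpen (W a) := fun a =>
        (hNcl a).isOpen_compl.preimage
          (((continuous_fst.comp continuous_subtype_val).inv).mul
            (continuous_snd.comp continuous_subtype_val))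
      obtain ⟨𝒱, h𝒱, hcof, hcov⟩ := exists_subcover_cof h (W '' (A₀ \ {1})) (by
          rintro _ ⟨a, ha, rfl⟩
          exact hWo a) (by
          rw [eq_univ_iff_forall]
          rintro ⟨⟨x, y⟩, hxy⟩
          obtain ⟨a, ha, ha1, hxa⟩ := hA₀ (x⁻¹ * y) (fun hh => hxy (inv_mul_eq_one.1 hh))
          exact ⟨W a, ⟨a, ⟨ha, ha1⟩, rfl⟩, hxa⟩)
      have hch : ∀ V : 𝒱, ∃ a : G, (a ∈ A₀ ∧ a ≠ 1) ∧ W a = V := fun V => h𝒱 V.2
      choose a ha haV using hch
      have h1 : Triv (range a) := by
        intro x hx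
        obtain ⟨V, hV, hxV⟩ := hcov.ge (mem_univ (⟨(1, x), hx.symm⟩ : CoDiagonal G))
        have hxV' : (⟨(1, x), hx.symm⟩ : CoDiagonal G) ∈ ((⟨V, hV⟩ : 𝒱) : Set (CoDiagonal G)) :=
          hxV
        rw [← haV ⟨V, hV⟩] at hxV'
        have h5 : (1 : G)⁻¹ * x ∉ N (a ⟨V, hV⟩) := hxV'
        rw [inv_one, one_mul] at h5
        exact ⟨_, ⟨⟨V, hV⟩, rfl⟩, (ha _).2, h5⟩
      have h2 : l ≤ #𝒱 := (hltriv _ h1).trans mk_range_le
      have h3 : #𝒱 ≤ l := by
        refine (Cardinal.mk_le_mk_of_subset h𝒱).trans (mk_image_le.trans ?_)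
        rw [← hA₀l]
        exact Cardinal.mk_le_mk_of_subset sdiff_subset
      rwa [le_antisymm h3 h2] at hcof
    have hl1 : ℵ_ 1 < l := by
      refine lt_of_le_of_ne ?_ ?_
      · rw [← Order.succ_le_iff, Cardinal.succ_aleph0] at hl0
        exact hl0
      · rintro rfl
        rw [isRegular_aleph_one.cof_ord] at hlcof
        exact absurd hlcof (not_le.2 aleph0_lt_aleph_one)
    -- closures of sets of size at most `l`
    have hcl : ∀ A : Set G, #A ≤ l → #(closure A) ≤ 𝔠 := by
      intro A hA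
      refine card_le_of_lindelof_diff h _ fun x _ => ?_
      obtain ⟨q⟩ := Cardinal.eq.1 (Cardinal.mk_ord_toType (#A))
      have hq : (⋃ i, ({(q i : G)} : Set G)) = A := by
        ext y
        simp only [mem_iUnion, mem_singleton_iff]
        constructor
        · rintro ⟨i, rfl⟩
          exact (q i).2
        · intro hy
          exact ⟨q.symm ⟨y, hy⟩, by simp⟩
      have h2 := isLindelof_closure_iUnion h N hN hl1 hl hA
        (fun i => (Homeomorph.mulLeft x⁻¹) '' {(q i : G)}) (by
          intro i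
          rw [image_singleton]
          exact ⟨inferInstance⟩)
      rw [← image_iUnion, hq, ← Homeomorph.image_closure] at h2
      have h4 := h2.image (Homeomorph.mulLeft x).continuous
      have h5 : (Homeomorph.mulLeft x) '' ((Homeomorph.mulLeft x⁻¹) '' closure A \ {1}) =
          closure A \ {x} := by
        rw [image_sdiff (Homeomorph.mulLeft x).injective, image_image, image_singleton]
        simp
      rwa [h5] at h4
    have hL : DiscretelyLindelof G := fun D hD =>
      isLindelof_iff_lindelofSpace.1 (isLindelof_closure h ⟨hD⟩)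
    have h1 := mk_quotient_iInf_le hL hl0.le hlc hcl
      (fun μ _ hμc hμ' hμ'' => hreg μ hμc hμ' hμ'') N hNcl hNq A₀ hA₀l.le
    have h2 : Function.Injective (fun g : G => (QuotientGroup.mk g : G ⧸ ⨅ b : A₀, N b)) := by
      intro x y hxy
      have h3 : x⁻¹ * y ∈ ⨅ b : A₀, N b := QuotientGroup.eq.1 hxy
      rw [Subgroup.mem_iInf] at h3
      by_contra hne
      obtain ⟨a, ha, -, hxa⟩ := hA₀ (x⁻¹ * y) (fun hh => hne (inv_mul_eq_one.1 hh))
      exact hxa (h3 ⟨a, ha⟩)
    exact (Cardinal.mk_le_of_injective h2).trans h1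

end Pool.Agent.CoDiag
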